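import Pool.Agent.K7.H40.Mag.Defs

/-!
# Names in ccc extensions: auxiliary facts
-/

set_option autoImplicit false

namespace Pool.Agent.K7.H40.Mag

open Cardinal Set Pool.Agent.Helper292.SP Pool.Agent.H631R2

variable {P : Type} [Preorder P]

/-- preserved by passing to stronger conditions -/
def Down (φ : Set P) : Prop := ∀ p ∈ φ, ∀ q ≤ p, q ∈ φ

theorem dn_fnot (φ : Set P) : Down (fnot φ) := fun _ h _ hq _ hr => h _ (hr.trans hq)
theorem dn_fand {φ ψ : Set P} (h : Down φ) (h' : Down ψ) : Down (fand φ ψ) :=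
  fun _ hp _ hq => ⟨h _ hp.1 _ hq, h' _ hp.2 _ hq⟩
theorem dn_fall {ι : Sort*} {φ : ι → Set P} (h : ∀ i, Down (φ i)) : Down (fall φ) :=
  fun _ hp _ hq i => h i _ (hp i) _ hq
theorem dn_fex {ι : Sort*} (φ : ι → Set P) : Down (fex φ) := dn_fnot _
theorem dn_fimp (φ ψ : Set P) : Down (fimp φ ψ) := dn_fnot _
theorem dn_fground (c : Prop) : Down (fground c : Set P) := fun _ h _ _ => h
theorem dn_meets (N : Set P) : Down (meets N) := fun _ h _ hq => down_meets h hq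
theorem dn_IsFun {X Y : Type} (R : X → Y → Set P) : Down (IsFun R) :=
  fun _ h _ hq => down_IsFun R _ _ h hq
theorem dn_SubN {X : Type} (E A : X → Set P) : Down (SubN E A) :=
  dn_fall fun _ => dn_fimp _ _
theorem dn_FinN {X : Type} (E : X → Set P) : Down (FinN E) := dn_fex _
theorem dn_CtblN {X : Type} (E : X → Set P) : Down (CtblN E) := dn_fand (dn_fnot _) (dn_fex _)
theorem dn_BddN {L : Type} [LinearOrder L] (E : L → Set P) : Down (BddN E) := dn_fex _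

theorem meets_of_le {N : Set P} {p s : P} (hs : s ∈ N) (h : p ≤ s) : p ∈ meets N :=
  fun q hq => ⟨q, le_rfl, s, hs, hq.trans h⟩

theorem exists_of_meets {N : Set P} {p : P} (h : p ∈ meets N) : ∃ r ≤ p, ∃ s ∈ N, r ≤ s :=
  h p le_rfl

theorem fex_of_mem {ι : Type} {φ : ι → Set P} {p : P} (i : ι) (hd : Down (φ i)) (h : p ∈ φ i) :
    p ∈ fex φ := mem_fex.2 fun q hq => ⟨q, le_rfl, i, hd _ h _ hq⟩

theorem SubN_iff {X : Type} {E A : X → Set P} {p : P} :
    p ∈ SubN E A ↔ ∀ a, ∀ q ≤ p, q ∈ meets (E a) → q ∈ meets (A a) := by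
  constructor
  · intro h a q hq h1
    refine meets_of_dense fun r hr => ?_
    exact mem_fimp.1 (h a) r (hr.trans hq) (down_meets h1 hr)
  · intro h a
    refine mem_fimp.2 fun q hq h1 => ⟨q, le_rfl, h a q hq h1⟩

/-- below each condition in `N` there is one below a member of the countable set `W ⊆ N` -/
theorem predense (hP : CCC P) (N : Set P) :
    ∃ W : Set P, W ⊆ N ∧ W.Countable ∧ ∀ u ∈ N, ∃ v ≤ u, ∃ w ∈ W, v ≤ w := by
  obtain ⟨W, hW⟩ := zorn_subset {W : Set P | W ⊆ N ∧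
    ∀ p ∈ W, ∀ q ∈ W, p ≠ q → ¬ ∃ r, r ≤ p ∧ r ≤ q} (by
    intro c hc hchain
    refine ⟨⋃₀ c, ⟨sUnion_subset fun S hS => (hc hS).1, ?_⟩, fun S hS => subset_sUnion_of_mem hS⟩
    rintro p ⟨S, hS, hp⟩ q ⟨S', hS', hq⟩ hne
    rcases hchain.total hS hS' with h | h
    · exact (hc hS').2 p (h hp) q hq hne
    · exact (hc hS).2 p hp q (h hq) hne)
  refine ⟨W, hW.prop.1, Cardinal.le_aleph0_iff_set_countable.mp (hP W hW.prop.2), fun u hu => ?_⟩
  by_contra hcon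
  have h2 : insert u W ⊆ N ∧
      ∀ p ∈ insert u W, ∀ q ∈ insert u W, p ≠ q → ¬ ∃ r, r ≤ p ∧ r ≤ q := by
    refine ⟨insert_subset hu hW.prop.1, ?_⟩
    rintro p (rfl | hp) q (rfl | hq) hne ⟨v, hv, hv'⟩
    · exact hne rfl
    · exact hcon ⟨v, hv, q, hq, hv'⟩
    · exact hcon ⟨v, hv', p, hp, hv⟩
    · exact hW.prop.2 p hp q hq hne ⟨v, hv, hv'⟩
  have h3 := hW.le_of_ge h2 (subset_insert u W) (mem_insert u W)
  exact hcon ⟨u, le_rfl, u, h3, le_rfl⟩

/-- nice names -/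
theorem nice (hP : CCC P) (N : Set P) :
    ∃ w : ℕ → Option P, ∀ u, u ∈ meets N ↔ u ∈ meets {t | ∃ n, w n = some t} := by
  obtain ⟨W, hWN, hWc, hW⟩ := predense hP (meets N)
  have hw : ∃ w : ℕ → Option P, ∀ t, (∃ n, w n = some t) ↔ t ∈ W := by
    rcases W.eq_empty_or_nonempty with h | h
    · refine ⟨fun _ => none, fun t => ?_⟩
      rw [h]; simp
    · obtain ⟨f, hf⟩ := hWc.exists_eq_range h
      refine ⟨fun n => some (f n), fun t => ?_⟩
      rw [hf]; simp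
  obtain ⟨w, hw⟩ := hw
  refine ⟨w, fun u => ⟨fun hu => ?_, fun hu => ?_⟩⟩
  · intro q hq
    obtain ⟨v, hv, t, ht, hvt⟩ := hW q (down_meets hu hq)
    exact ⟨v, hv, t, (hw t).2 ht, hvt⟩
  · refine meets_of_dense fun q hq => ?_
    obtain ⟨v, hv, t, ht, hvt⟩ := hu q hq
    exact ⟨v, hv, down_meets (hWN ((hw t).1 ht)) hvt⟩

end Pool.Agent.K7.H40.Mag
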