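import Pool.Agent.K7.H40.Mag.Inf

/-!
# Intersections with Cohen reals
-/

set_option autoImplicit false

namespace Pool.Agent.K7.H40.Mag

open Cardinal Set Pool.Agent.Helper292.SP Pool.Agent.H631R2

variable {M : Type}

/-- nice names for subsets of `ℕ` -/
abbrev NN (M : Type) : Type := ℕ → ℕ → Option (Cond (M × ℕ))

/-- the named subset -/
def Tn (w : NN M) : ℕ → Set (Cond (M × ℕ)) := fun k => {t | ∃ n, w k n = some t}

/-- the support -/
def Supp (w : NN M) : Set M := {α | ∃ k n t, w k n = some t ∧ ∃ m, (α, m) ∈ t.dom}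

/-- the intersection with the Cohen real `α` -/
def Xn (w : NN M) (α : M) : ℕ → Set (Cond (M × ℕ)) := fun k =>
  {r | r ∈ meets (Tn w k) ∧ ((α, k), true) ∈ r.s}

theorem supp_countable (w : NN M) : (Supp w).Countable := by
  have h : Supp w = ⋃ k, ⋃ n, {α | ∃ t, w k n = some t ∧ ∃ m, (α, m) ∈ t.dom} := by
    ext α
    simp only [Supp, Set.mem_ofPred_eq, Set.mem_iUnion]
  rw [h]
  refine Set.countable_iUnion fun k => Set.countable_iUnion fun n => ?_
  cases hw : w k n with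
  | none => simp
  | some t =>
    refine ((t.dom_finite.image Prod.fst).subset ?_).countable
    rintro α ⟨t', ht', m, hm⟩
    rw [Option.some.injEq] at ht'
    exact ⟨(α, m), ht' ▸ hm, rfl⟩

open Classical in
/-- change one value -/
theorem exists_set {I : Type} (p : Cond I) (i : I) (b : Bool) :
    ∃ r : Cond I, (i, b) ∈ r.s ∧ ∀ q : Cond I, p ≤ q → i ∉ q.dom → r ≤ q := by
  let p0 : Cond I := ⟨p.s.filter fun x => x.1 ≠ i, fun j h1 h2 =>
    p.fn j (Finset.mem_filter.1 h1).1 (Finset.mem_filter.1 h2).1⟩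
  have h0 : i ∉ p0.dom := by
    intro h
    obtain ⟨c, hc⟩ := Cond.mem_dom.1 h
    exact (Finset.mem_filter.1 hc).2 rfl
  obtain ⟨r, hr, hr1, _⟩ := p0.exists_ext h0 b
  refine ⟨r, hr1, fun q hpq hq => hr.trans ?_⟩
  intro x hx
  refine Finset.mem_filter.2 ⟨hpq hx, fun h => hq ?_⟩
  exact Cond.mem_dom.2 ⟨x.2, by rw [← h]; exact hx⟩

theorem le_of_mem_Tn {w : NN M} {α : M} (hα : α ∉ Supp w) {k j : ℕ} {t : Cond (M × ℕ)}
    (ht : t ∈ Tn w k) : (α, j) ∉ t.dom := by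
  obtain ⟨n, hn⟩ := ht
  exact fun h => hα ⟨k, n, t, hn, j, h⟩

theorem fresh_finite (p : Cond (M × ℕ)) (α : M) : {k | (α, k) ∈ p.dom}.Finite :=
  p.dom_finite.preimage (f := fun k => (α, k)) (fun _ _ _ _ h => (Prod.mk.inj h).2)

theorem Xn_meets {w : NN M} {α : M} {k : ℕ} {r : Cond (M × ℕ)} (h : r ∈ meets (Xn w α k)) :
    r ∈ meets (Tn w k) := by
  refine meets_of_dense fun q hq => ?_
  obtain ⟨t, ht, s, hs, hts⟩ := h q hq
  exact ⟨t, ht, down_meets hs.1 hts⟩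

theorem Xn_inf {w : NN M} {α : M} (hα : α ∉ Supp w) {q : Cond (M × ℕ)}
    (h : q ∈ fnot (FinN (Tn w))) : q ∈ fnot (FinN (Xn w α)) := by
  classical
  rw [inf_iff] at h ⊢
  intro r hr s
  obtain ⟨k, hk, r1, hr1, h1⟩ := h r hr (s ∪ (fresh_finite r α).toFinset)
  rw [Finset.mem_union, not_or, Set.Finite.mem_toFinset] at hk
  obtain ⟨r2, hr2, t, ht, hrt⟩ := exists_of_meets h1
  obtain ⟨r3, h3, h4⟩ := exists_set r2 (α, k) true
  have h5 : r3 ≤ t := h4 t hrt (le_of_mem_Tn hα ht)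
  refine ⟨k, hk.1, r3, h4 r (hr2.trans hr1) hk.2, meets_of_le ?_ le_rfl⟩
  exact ⟨meets_of_le ht h5, h3⟩

theorem Xn_ne {w w' : NN M} {α α' : M} (hα : α ∉ Supp w) (hα' : α ∉ Supp w') (hne : α ≠ α')
    {q : Cond (M × ℕ)} (h : q ∈ fnot (FinN (Xn w α)))
    (h1 : ∀ r ≤ q, ∀ k, r ∈ meets (Xn w α k) → r ∈ meets (Xn w' α' k))
    (h2 : ∀ r ≤ q, ∀ k, r ∈ meets (Xn w' α' k) → r ∈ meets (Xn w α k)) : False := by
  classical
  rw [inf_iff] at h
  obtain ⟨k, hk, r1, hr1, h3⟩ := h q le_rfl (fresh_finite q α).toFinset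
  rw [Set.Finite.mem_toFinset] at hk
  obtain ⟨r2, hr2, t, ht, hrt⟩ := exists_of_meets (Xn_meets h3)
  -- `r3` forces `k` into the first set
  obtain ⟨r3, h4, h5⟩ := exists_set r2 (α, k) true
  have hr3q : r3 ≤ q := h5 q (hr2.trans hr1) hk
  have hr3t : r3 ≤ t := h5 t hrt (le_of_mem_Tn hα ht)
  have h6 : r3 ∈ meets (Xn w α k) := meets_of_le ⟨meets_of_le ht hr3t, h4⟩ le_rfl
  obtain ⟨r4, hr4, s, hs, hrs⟩ := exists_of_meets (h1 r3 hr3q k h6)
  obtain ⟨r5, hr5, t', ht', hrt'⟩ := exists_of_meets (down_meets hs.1 hrs)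
  -- `r6` forces `k` out of the first set and into the second
  obtain ⟨r6, h7, h8⟩ := exists_set r5 (α, k) false
  have hr6q : r6 ≤ q := h8 q (hr5.trans (hr4.trans hr3q)) hk
  have hr6t' : r6 ≤ t' := h8 t' hrt' (le_of_mem_Tn hα' ht')
  have h9 : ((α', k), true) ∈ r6.s := by
    let u : Cond (M × ℕ) := ⟨{((α', k), true)}, fun i h1 h2 => by
      rw [Finset.mem_singleton] at h1 h2
      have := h1.symm.trans (Prod.ext_iff.2 ⟨(Prod.ext_iff.1 h1).1, rfl⟩)
      have h3 := (Prod.ext_iff.1 h2).2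
      exact absurd h3 (by simp)⟩
    have hu : r6 ≤ u := by
      refine h8 u ?_ ?_
      · intro x hx
        rw [Finset.mem_singleton] at hx
        rw [hx]
        exact hr5 (hrs hs.2)
      · intro h
        obtain ⟨b, hb⟩ := Cond.mem_dom.1 h
        rw [Finset.mem_singleton] at hb
        exact hne (Prod.ext_iff.1 (Prod.ext_iff.1 hb).1).1
    exact hu (Finset.mem_singleton_self _)
  have h10 : r6 ∈ meets (Xn w' α' k) := meets_of_le ⟨meets_of_le ht' hr6t', h9⟩ le_rfl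
  obtain ⟨r7, hr7, s', hs', hrs'⟩ := exists_of_meets (h2 r6 hr6q k h10)
  exact absurd (Cond.unique (hr7 h7) (hrs' hs'.2)) (by simp)

/-- Fresh indices for `#M` many tasks. -/
theorem exists_fresh {M T : Type} (hM : ℵ₀ < #M) (hT : #T ≤ #M) (S : T → Set M)
    (hS : ∀ t, (S t).Countable) : ∃ α : T → M, (∀ t, α t ∉ S t) ∧
      ∀ t t', t ≠ t' → α t ≠ α t' ∧ (α t ∉ S t' ∨ α t' ∉ S t) := by
  obtain ⟨ι⟩ : Nonempty (T ↪ (#M).ord.ToType) := by
    rw [← Cardinal.le_def, Cardinal.mk_toType, Cardinal.card_ord]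
    exact hT
  obtain ⟨e⟩ : Nonempty ((#M).ord.ToType × (#M).ord.ToType ↪ M) := by
    rw [← Cardinal.le_def, Cardinal.mk_prod, Cardinal.mk_toType, Cardinal.card_ord]
    simp only [Cardinal.lift_id]
    exact (Cardinal.mul_eq_self hM.le).le
  have h1 : ∀ t : T, ∃ m : (#M).ord.ToType, ∀ t', ι t' ≤ ι t → e (ι t, m) ∉ S t' := by
    intro t
    by_contra hcon
    push Not at hcon
    have h2 : #(#M).ord.ToType ≤ #(⋃ t' : {t' : T // ι t' ≤ ι t}, S t'.1) := by
      refine Cardinal.mk_le_of_injective (f := fun m => ⟨e (ι t, m), ?_⟩) ?_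
      · obtain ⟨t', h3, h4⟩ := hcon m
        exact Set.mem_iUnion.2 ⟨⟨t', h3⟩, h4⟩
      · intro m m' hmm
        have h3 := e.injective (Subtype.mk.inj hmm)
        exact (Prod.mk.inj h3).2
    have h3 : #{t' : T // ι t' ≤ ι t} < #M := by
      have h4 : #{t' : T // ι t' ≤ ι t} ≤ #(Iic (ι t)) :=
        Cardinal.mk_le_of_injective (f := fun t' => (⟨ι t'.1, t'.2⟩ : Iic (ι t)))
          (fun a b hab => Subtype.ext (ι.injective (Subtype.mk.inj hab)))
      refine h4.trans_lt ?_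
      rw [← Set.Iio_insert]
      refine (Cardinal.mk_insert_le).trans_lt ?_
      have h5 := hI_ord #M (ι t)
      rw [Cardinal.mk_toType, Cardinal.card_ord] at h5
      exact Cardinal.add_lt_of_lt hM.le h5 (Cardinal.one_lt_aleph0.trans hM)
    have h4 : #(⋃ t' : {t' : T // ι t' ≤ ι t}, S t'.1) < #M := by
      refine (Cardinal.mk_iUnion_le_sum_mk).trans_lt ?_
      refine (Cardinal.sum_le_sum _ (fun _ => ℵ₀) fun t' : {t' : T // ι t' ≤ ι t} =>
        Cardinal.le_aleph0_iff_set_countable.mpr (hS t'.1)).trans_lt ?_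
      rw [Cardinal.sum_const']
      exact Cardinal.mul_lt_of_lt hM.le h3 hM
    rw [Cardinal.mk_toType, Cardinal.card_ord] at h2
    exact absurd (h2.trans_lt h4) (lt_irrefl _)
  choose m hm using h1
  refine ⟨fun t => e (ι t, m t), fun t => hm t t le_rfl, fun t t' hne => ⟨?_, ?_⟩⟩
  · intro h
    exact hne (ι.injective (Prod.mk.inj (e.injective h)).1)
  · rcases le_total (ι t') (ι t) with h | h
    · exact Or.inl (hm t t' h)
    · exact Or.inr (hm t' t h)

end Pool.Agent.K7.H40.Mag
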