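import Pool.Agent.H631R2.Arith

/-!
# The ordinal `α_M` of a Magidor cardinal: definitions

The forcing language is that of `Pool.Agent.Helper292.SP.Lang`: a sentence is the set of the
conditions which force it.
-/

set_option autoImplicit false

namespace Pool.Agent.K7.H40.Mag

open Cardinal Set Pool.Agent.Helper292.SP Pool.Agent.H631R2

/-- `x` is a countably infinite subset of the ordered set `L` which is bounded in `L`. -/
def CtblBdd {L : Type} [LinearOrder L] (x : Set L) : Prop :=
  x.Infinite ∧ x.Countable ∧ ∃ b, ∀ a ∈ x, a < b

/-- `lam → [lam]^{ℵ₀-bd}_{α, < α}` for cardinals `lam` and `α`: for every function `f` from the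
countably infinite bounded subsets of `lam` to `α` there is a set `A ⊆ lam` of cardinality `lam`
such that `f` has fewer than `α` values on the countably infinite bounded subsets of `A`. -/
def ArrowLt (lam α : Cardinal.{0}) : Prop :=
  ∀ f : {x : Set lam.ord.ToType // CtblBdd x} → α.ord.ToType,
    ∃ A : Set lam.ord.ToType, #A = lam ∧
      #{γ | ∃ x : {x : Set lam.ord.ToType // CtblBdd x}, x.1 ⊆ A ∧ f x = γ} < α

section Names

variable {P : Type} [Preorder P]

/-- The named subset `E` of `X` is contained in the named subset `A`. -/
def SubN {X : Type} (E A : X → Set P) : Set P :=
  fall fun a => fimp (meets (E a)) (meets (A a))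

/-- The named subset `E` of `X` is finite: it is contained in a finite set of the ground model. -/
def FinN {X : Type} (E : X → Set P) : Set P :=
  fex fun s : Finset X => fall fun a => fimp (meets (E a)) (fground (a ∈ s))

/-- The named subset `E` of `X` is countably infinite: it is not finite, and it is contained in
the range of some function from `ℕ` to `X`. -/
def CtblN {X : Type} (E : X → Set P) : Set P :=
  fand (fnot (FinN E)) (fex fun R : ℕ → X → Set P => fand (IsFun R)
    (fall fun a => fimp (meets (E a)) (fex fun n => meets (R n a))))

/-- The named subset `E` of the ordered set `L` is bounded in `L`. -/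
def BddN {L : Type} [LinearOrder L] (E : L → Set P) : Set P :=
  fex fun b : L => fall fun a => fimp (meets (E a)) (fground (a < b))

/-- The named subset `A` of `L` has the cardinality of `L`: there is a one-to-one function from
`L` to `L` all of whose values are in `A`. -/
def FullN {L : Type} (A : L → Set P) : Set P :=
  fex fun R : L → L → Set P => fand (IsFun R) (fand (IsInj R)
    (fall fun x => fall fun y => fimp (meets (R x y)) (meets (A y))))

variable (P)

/-- `L → [L]^{ℵ₀-bd}_K` in the extension, for well-ordered sets `L` and `K`. A function
`f` from the countably infinite bounded subsets of `L` to `K` is given by a set `Y` of the ground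
model, a named family `E y`, `y ∈ Y`, of subsets of `L` and a named function `F` from `Y` to `K`
such that `E y = E y'` implies `F y = F y'`; so `f (E y) = F y`. (Every set of the extension is the
range of a function defined on a set of the ground model, so every `f` is of this form.)
The sentence says that for each such `f` there are a subset `A` of `L` of the cardinality of `L`
and an element `γ` of `K` such that `f` does not take the value `γ` on the countably infinite
bounded subsets of `A`. -/
def ArrowN (L K : Type) [LinearOrder L] : Set P :=
  fall fun Y : Type => fall fun E : Y → L → Set P => fall fun F : Y → K → Set P =>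
    fimp
      (fand (IsFun F) (fall fun y => fall fun y' =>
        fimp (fand (SubN (E y) (E y')) (SubN (E y') (E y)))
          (fall fun c => fimp (meets (F y c)) (meets (F y' c)))))
      (fex fun A : L → Set P => fand (FullN A)
        (fex fun γ : K => fall fun y : Y =>
          fimp (fand (SubN (E y) A) (fand (CtblN (E y)) (BddN (E y)))) (fnot (meets (F y γ)))))

/-- The well-ordered set `L` has cofinality `ω` in the extension: some function from `ℕ` to `L`
is cofinal. -/
def CofOmegaN (L : Type) [LinearOrder L] : Set P :=
  fex fun F : ℕ → L → Set P => fand (IsFun F)
    (fall fun c : L => fex fun n => fex fun z : L => fand (meets (F n z)) (fground (c < z)))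

/-- The well-ordered set `M` is singular in the extension: some function from a proper initial
segment of `M` to `M` is cofinal. -/
def SingularN (M : Type) [LinearOrder M] : Set P :=
  fex fun b : M => fex fun F : Iio b → M → Set P => fand (IsFun F)
    (fall fun c : M => fex fun x => fex fun z : M => fand (meets (F x z)) (fground (c < z)))

/-- The well-ordered set `K` has the order type of the successor of the cardinal of `M`: no
function from `M` to `K` is onto, and every proper initial segment of `K` can be mapped one-to-one
into `M`. -/
def SuccN (M K : Type) [LinearOrder K] : Set P :=
  fand (NoOnto P M K)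
    (fall fun b : K => fex fun F : Iio b → M → Set P => fand (IsFun F) (IsInj F))

/-- In the extension `L` is a cardinal, it has cofinality `ω`, and it is a Magidor cardinal. -/
def MagidorN (L : Type) [LinearOrder L] : Set P :=
  fand (IsCard P L) (fand (CofOmegaN P L) (ArrowN P L L))

/-- In the extension `K` has order type `α_M (L)`: `L → [L]^{ℵ₀-bd}_K` holds, and
`L → [L]^{ℵ₀-bd}_α` fails for every nonempty proper initial segment `α` of `K`. -/
def AlphaMN (L K : Type) [LinearOrder L] [LinearOrder K] : Set P :=
  fand (ArrowN P L K)
    (fall fun b : K => fall fun _ : (∃ a : K, a < b) => fnot (ArrowN P L (Iio b)))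

end Names

end Pool.Agent.K7.H40.Mag
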