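import Pool.Agent.K7.H40.Mag.Defs
import Pool.Agent.SOCat.I1card

/-!
# `I1` gives `lam → [lam]^{ℵ₀-bd}_{α, < α}` for all cardinals `α` between the critical point and `lam`
-/

set_option autoImplicit false

namespace Pool.Agent.K7.H40.Mag

open Cardinal Set SOCat ZFSet

variable {o : Ordinal.{0}}

/-! ### the formulas -/

/-- the colouring `C` has fewer than `a` values on the subsets of some set `B` of ordinals onto
which the ordinals can be mapped one-to-one -/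
def Phi (C a : VS o) : Prop := ∃ B : VS o, ∃ f : VS o,
  ((∀ x : VS o, x.1 ∈ B.1 → dom x) ∧
    (∀ x : VS o, dom x → ∃ y : VS o, y.1 ∈ B.1 ∧ App f x y) ∧
    (∀ x : VS o, ∀ x' : VS o, ∀ y : VS o, App f x y → App f x' y → x = x')) ∧
  ∃ b : VS o, b.1 ∈ a.1 ∧ ∃ g : VS o,
    (∀ x : VS o, ∀ y : VS o, App C x y → Sub x B → ∃ t : VS o, t.1 ∈ b.1 ∧ App g t y) ∧
    (∀ t : VS o, ∀ y : VS o, ∀ y' : VS o, App g t y → App g t y' → y = y')

theorem d_Phi (i k : ℕ) : Dfn.{0} fun _ v => Phi (v i) (v k) :=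
  (((((Dfn.mem 0 2).imp (d_dom 0)).all).and
    ((((d_dom 0).imp (((Dfn.mem 0 3).and (d_App 2 1 0)).ex)).all).and
    (((d_App 3 2 0).imp ((d_App 3 1 0).imp (Dfn.eq 2 1))).all.all.all))).and
  (((Dfn.mem 0 (k+3)).and ((((((d_App (i+6) 1 0).imp ((d_Sub 1 5).imp
      (((Dfn.mem 0 4).and (d_App 3 0 1)).ex))).all).all).and
    (((d_App 3 2 1).imp ((d_App 3 2 0).imp (Dfn.eq 1 0))).all.all.all)).ex)).ex)).ex.ex

/-- `C` is a function into `a` defined on sets which are images of `w` -/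
def Q1 (C w a : VS o) : Prop :=
  (∀ x : VS o, ∀ y : VS o, App C x y → (∃ e : VS o, Surj e w x) ∧ y.1 ∈ a.1) ∧
  (∀ x : VS o, ∀ y : VS o, ∀ y' : VS o, App C x y → App C x y' → y = y')

theorem d_Q1 (i k l : ℕ) : Dfn.{0} fun _ v => Q1 (v i) (v k) (v l) :=
  (((d_App (i+2) 1 0).imp (((d_Surj 0 (k+3) 2).ex).and (Dfn.mem 0 (l+2)))).all.all).and
  (((d_App (i+3) 2 1).imp ((d_App (i+3) 2 0).imp (Dfn.eq 1 0))).all.all.all)

/-- inductive set -/
def Ind (w : VS o) : Prop :=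
  (∀ z : VS o, Emp z → z.1 ∈ w.1) ∧ ∀ x : VS o, x.1 ∈ w.1 → ∀ y : VS o, Suc x y → y.1 ∈ w.1

theorem d_Ind (i : ℕ) : Dfn.{0} fun _ v => Ind (v i) :=
  (((d_Emp 0).imp (Dfn.mem 0 (i+1))).all).and
  (((Dfn.mem 0 (i+1)).imp (((d_Suc 1 0).imp (Dfn.mem 0 (i+2))).all)).all)

/-- the least inductive set -/
def Om (w : VS o) : Prop := Ind w ∧ ∀ v : VS o, Ind v → Sub w v

theorem d_Om (i : ℕ) : Dfn.{0} fun _ v => Om (v i) :=
  (d_Ind i).and (((d_Ind 0).imp (d_Sub (i+1) 0)).all)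

theorem Om_unique {w w' : VS o} (h : Om w) (h' : Om w') : w = w' := by
  apply vs_ext
  intro z
  exact ⟨fun hz => sub_iff.1 (h.2 w' h'.1) hz, fun hz => sub_iff.1 (h'.2 w h.1) hz⟩

theorem Om_omega (hω : Ordinal.omega0 ≤ o) : Om (IsI1Emb.xo Ordinal.omega0 hω) := by
  refine ⟨⟨?_, ?_⟩, ?_⟩
  · intro z hz
    rw [Emp_iff] at hz
    rw [hz]
    show ∅ ∈ Ordinal.omega0.toZFSet
    rw [← Ordinal.toZFSet_zero, Ordinal.toZFSet_mem_toZFSet_iff]
    exact Ordinal.omega0_pos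
  · intro x hx y hy
    obtain ⟨a, ha, hax⟩ := Ordinal.mem_toZFSet_iff.1 hx
    rw [Suc_iff, ← hax, ← Ordinal.toZFSet_add_one] at hy
    rw [hy]
    exact Ordinal.toZFSet_mem_toZFSet_iff.2 (Ordinal.isSuccLimit_omega0.add_one_lt ha)
  · intro v hv
    rw [sub_iff]
    intro z hz
    obtain ⟨a, ha, rfl⟩ := Ordinal.mem_toZFSet_iff.1 hz
    obtain ⟨n, rfl⟩ := Ordinal.lt_omega0.1 ha
    clear hz ha
    induction n with
    | zero =>
      refine hv.1 ⟨(((0:ℕ) : Ordinal.{0})).toZFSet, ?_⟩ ?_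
      · rw [Ordinal.rank_toZFSet]; simp
      · rw [Emp_iff]
        show (((0:ℕ) : Ordinal.{0})).toZFSet = ∅
        simp
    | succ n ih =>
      have hn : (n : Ordinal.{0}) ≤ o := (Ordinal.natCast_lt_omega0 n).le.trans hω
      have hn' : ((n+1 : ℕ) : Ordinal.{0}) ≤ o := (Ordinal.natCast_lt_omega0 (n+1)).le.trans hω
      refine hv.2 (IsI1Emb.xo (n : Ordinal.{0}) hn) ih (IsI1Emb.xo ((n+1 : ℕ) : Ordinal.{0}) hn')
        (Suc_iff.2 ?_)
      show ((n+1 : ℕ) : Ordinal.{0}).toZFSet = _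
      rw [Nat.cast_succ, Ordinal.toZFSet_add_one]
      rfl

theorem exists_graph (ho : Lim o) (R : VS o → VS o → Prop) : ∃ f : VS o, ∀ x y : VS o,
    App f x y ↔ (x.1.rank < o ∧ y.1.rank < o ∧ R x y) := by
  let f : VS o := ⟨ZFSet.sep (fun z => ∃ x y : VS o, z = pair x.1 y.1 ∧ R x y)
    (ZFSet.vonNeumann o), by
      rw [← ZFSet.subset_vonNeumann]
      intro z hz
      exact (ZFSet.mem_sep.1 hz).1⟩
  refine ⟨f, fun x y => ?_⟩
  rw [App_iff]
  show pair x.1 y.1 ∈ ZFSet.sep (fun z => ∃ x y : VS o, z = pair x.1 y.1 ∧ R x y)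
    (ZFSet.vonNeumann o) ↔ _
  rw [ZFSet.mem_sep, ZFSet.mem_vonNeumann]
  constructor
  · rintro ⟨h1, x', y', h2, h3⟩
    rw [ZFSet.pair_inj] at h2
    have e1 : x = x' := Subtype.ext h2.1
    have e2 : y = y' := Subtype.ext h2.2
    subst e1 e2
    exact ⟨(rank_left_lt _ _).trans h1, (rank_right_lt _ _).trans h1, h3⟩
  · rintro ⟨h1, h2, h3⟩
    exact ⟨ho.rank_pair_lt h1 h2, x, y, rfl, h3⟩

section

variable {j : VS o → VS o} {κ : ℕ → Ordinal.{0}} (h : IsI1Emb j κ)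
include h

theorem j_inj {x y : VS o} (e : j x = j y) : x = y :=
  (h.el.d3 (Q := fun x y _ => x = y) (Dfn.eq 0 1) x y x).2 e

theorem j_App (g x y : VS o) : App g x y ↔ App (j g) (j x) (j y) :=
  h.el.d3 (Q := fun g x y => App g x y) (d_App 0 1 2) g x y

theorem j_dom (x : VS o) : dom x ↔ dom (j x) :=
  h.el.d3 (Q := fun x _ _ => dom x) (d_dom 0) x x x

theorem j_sub {x y : VS o} (hs : x.1 ⊆ y.1) : (j x).1 ⊆ (j y).1 :=
  sub_iff.1 ((h.el.d3 (Q := fun x y _ => Sub x y) (d_Sub 0 1) x y y).1 (sub_iff.2 hs))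

/-- ordinals in `V_{o+1}` -/
theorem dom_toZFSet {x : VS o} : dom x ↔ ∃ a < o, x.1 = a.toZFSet := by
  rw [dom_iff h.lim]
  constructor
  · rintro ⟨h1, h2⟩
    exact ⟨x.1.rank, h1, (ZFSet.IsOrdinal.toZFSet_rank_eq h2).symm⟩
  · rintro ⟨a, ha, hx⟩
    rw [hx]
    exact ⟨by rw [Ordinal.rank_toZFSet]; exact ha, ZFSet.isOrdinal_toZFSet a⟩

theorem omega_le_o : Ordinal.omega0 ≤ o := h.omega_le.trans (h.le 0)

theorem j_omega : j (IsI1Emb.xo Ordinal.omega0 (omega_le_o h)) =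
    IsI1Emb.xo Ordinal.omega0 (omega_le_o h) :=
  Om_unique ((h.el.d3 (Q := fun x _ _ => Om x) (d_Om 0) _ (IsI1Emb.xo Ordinal.omega0 (omega_le_o h))
    (IsI1Emb.xo Ordinal.omega0 (omega_le_o h))).1 (Om_omega (omega_le_o h))) (Om_omega (omega_le_o h))

theorem j_nat {x : VS o} (hx : x.1 ∈ Ordinal.omega0.toZFSet) : j x = x := by
  obtain ⟨a, ha, hax⟩ := Ordinal.mem_toZFSet_iff.1 hx
  exact h.crit x a (ha.trans_le h.omega_le) hax.symm

theorem j_rank_lt {x : VS o} (hx : x.1.rank < o) : (j x).1.rank < o := h.wit.rank_lt hx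

/-- an ordinal `≥ κ n` is mapped to a superset of `κ (n+1)` -/
theorem kappa_le {x : VS o} {a : Ordinal.{0}} (hx : x.1 = a.toZFSet) {n : ℕ} (ha : κ n ≤ a) :
    (κ (n+1)).toZFSet ⊆ (j x).1 := by
  have h1 : (IsI1Emb.xo (κ n) (h.le n)).1 ⊆ x.1 := by
    rw [hx]; exact Ordinal.toZFSet_subset_toZFSet_iff.2 ha
  have h2 := j_sub h h1
  rwa [h.next n _ rfl] at h2

theorem mem_j {α : Ordinal.{0}} (h0 : κ 0 ≤ α) (hα : α < o) :
    α.toZFSet ∈ (j (IsI1Emb.xo α hα.le)).1 := by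
  classical
  have h1 : ∃ n, α < κ n := (h.sup α).1 hα
  have h2 := Nat.find_spec h1
  obtain ⟨n, hn⟩ : ∃ n, Nat.find h1 = n + 1 := by
    cases hf : Nat.find h1 with
    | zero => rw [hf] at h2; exact absurd h0 (not_le.2 h2)
    | succ n => exact ⟨n, rfl⟩
  have h3 : κ n ≤ α := not_lt.1 (Nat.find_min h1 (by omega))
  rw [hn] at h2
  exact kappa_le h (x := IsI1Emb.xo α hα.le) rfl h3 (Ordinal.toZFSet_mem_toZFSet_iff.2 h2)

theorem phi_of {α : Ordinal.{0}} (h0 : κ 0 ≤ α) (hα : α < o) (C : VS o)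
    (hQ : Q1 C (IsI1Emb.xo Ordinal.omega0 (omega_le_o h)) (IsI1Emb.xo α hα.le))
    (htot : ∀ x : VS o, x.1.rank < o → (∀ y : VS o, y.1 ∈ x.1 → dom y) →
      (∃ e : VS o, Surj e (IsI1Emb.xo Ordinal.omega0 (omega_le_o h)) x) → ∃ y : VS o, App C x y) :
    Phi C (IsI1Emb.xo α hα.le) := by
  set W := IsI1Emb.xo Ordinal.omega0 (omega_le_o h) with hW
  set a := IsI1Emb.xo α hα.le with ha
  have hQj := (h.el.d3 (Q := fun x y z => Q1 x y z) (d_Q1 0 1 2) C W a).1 hQ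
  rw [j_omega h] at hQj
  refine (h.el.d3 (Q := fun x y _ => Phi x y) (d_Phi 0 1) C a a).2 ?_
  -- the set `j '' o`
  let B : VS o := ⟨ZFSet.sep (fun z => ∃ x : VS o, dom x ∧ z = (j x).1) (ZFSet.vonNeumann o), by
    rw [← ZFSet.subset_vonNeumann]
    intro z hz
    exact (ZFSet.mem_sep.1 hz).1⟩
  have hdr : ∀ x : VS o, dom x → x.1.rank < o := fun x hx => ((dom_iff h.lim).1 hx).1
  have hB : ∀ z : ZFSet.{0}, z ∈ B.1 ↔ ∃ x : VS o, dom x ∧ z = (j x).1 := by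
    intro z
    show z ∈ ZFSet.sep (fun z => ∃ x : VS o, dom x ∧ z = (j x).1) (ZFSet.vonNeumann o) ↔ _
    rw [ZFSet.mem_sep, ZFSet.mem_vonNeumann]
    constructor
    · exact fun h => h.2
    · rintro ⟨x, hx, rfl⟩
      exact ⟨j_rank_lt h (hdr x hx), x, hx, rfl⟩
  have graph := exists_graph h.lim
  obtain ⟨f, hf⟩ := graph (fun x y => dom x ∧ y = j x)
  obtain ⟨g, hg⟩ := graph (fun x y => x.1 ∈ a.1 ∧ y = j x)
  refine ⟨B, f, ⟨?_, ?_, ?_⟩, a, mem_j h h0 hα, g, ?_, ?_⟩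
  · intro x hx
    obtain ⟨x', hx', hxx⟩ := (hB _).1 hx
    have : x = j x' := Subtype.ext hxx
    rw [this]
    exact (j_dom h x').1 hx'
  · intro x hx
    exact ⟨j x, (hB _).2 ⟨x, hx, rfl⟩, (hf _ _).2 ⟨hdr x hx, j_rank_lt h (hdr x hx), hx, rfl⟩⟩
  · intro x x' y hx hx'
    have h1 := ((hf _ _).1 hx).2.2.2
    have h2 := ((hf _ _).1 hx').2.2.2
    exact j_inj h (h1.symm.trans h2)
  · intro x y hxy hxB
    rw [sub_iff] at hxB
    obtain ⟨⟨e, he⟩, -⟩ := hQj.1 x y hxy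
    have hxr : x.1.rank < o := by
      rw [App_iff] at hxy
      exact (rank_left_lt _ _).trans ((rank_lt_of_mem hxy).trans_le (j C).2)
    -- the preimage
    let x' : VS o := ⟨ZFSet.sep (fun z => ∃ w : VS o, dom w ∧ z = w.1 ∧ (j w).1 ∈ x.1)
      (ZFSet.vonNeumann o), by
        rw [← ZFSet.subset_vonNeumann]
        intro z hz
        exact (ZFSet.mem_sep.1 hz).1⟩
    have hx' : ∀ w : VS o, w.1 ∈ x'.1 ↔ (dom w ∧ (j w).1 ∈ x.1) := by
      intro w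
      show w.1 ∈ ZFSet.sep (fun z => ∃ w : VS o, dom w ∧ z = w.1 ∧ (j w).1 ∈ x.1)
        (ZFSet.vonNeumann o) ↔ _
      rw [ZFSet.mem_sep, ZFSet.mem_vonNeumann]
      constructor
      · rintro ⟨-, w', h1, h2, h3⟩
        have : w = w' := Subtype.ext h2
        subst this
        exact ⟨h1, h3⟩
      · rintro ⟨h1, h2⟩
        exact ⟨hdr w h1, w, h1, rfl, h2⟩
    obtain ⟨e', he'⟩ := graph (fun n w => n.1 ∈ W.1 ∧ dom w ∧ App e n (j w))
    have hωo : Ordinal.omega0 ≤ o := omega_le_o h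
    have hnr : ∀ n : VS o, n.1 ∈ W.1 → n.1.rank < o := by
      intro n hn
      have h1 := rank_lt_of_mem hn
      exact h1.trans_le W.2
    have hS : Surj e' W x' := by
      constructor
      · intro w hw
        obtain ⟨h1, h2⟩ := (hx' w).1 hw
        obtain ⟨n, hn, hnw⟩ := he.1 (j w) h2
        exact ⟨n, hn, (he' _ _).2 ⟨hnr n hn, hdr w h1, hn, h1, hnw⟩⟩
      · intro n w w' h1 h2
        exact j_inj h (he.2 n _ _ ((he' _ _).1 h1).2.2.2.2 ((he' _ _).1 h2).2.2.2.2)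
    have hSj : Surj (j e') W (j x') := by
      have := (h.el.d3 (Q := fun x y z => Surj x y z) (d_Surj 0 1 2) e' W x').1 hS
      rwa [j_omega h] at this
    have hjx : j x' = x := by
      apply vs_ext
      intro z
      constructor
      · intro hz
        obtain ⟨n, hn, hnz⟩ := hSj.1 (down hz) hz
        have hjn : j n = n := j_nat h hn
        have h1 : HV (j e') (j n) (j x') := by
          rw [hjn]; exact ⟨_, hz, hnz⟩
        rw [← h.el.d3 (Q := fun x y z => HV x y z) (d_HV 0 1 2) e' n x'] at h1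
        obtain ⟨w, hw, hnw⟩ := h1
        have h2 := (j_App h _ _ _).1 hnw
        rw [hjn] at h2
        have h3 := hSj.2 n _ _ h2 hnz
        have h4 := ((hx' w).1 hw).2
        rw [h3] at h4
        exact h4
      · intro hz
        obtain ⟨w, hw, rfl⟩ := (hB z).1 (hxB hz)
        exact (h.el.mem_iff w x').1 ((hx' w).2 ⟨hw, hz⟩)
    have hx'r : x'.1.rank < o := by
      obtain ⟨n, hn⟩ := (h.sup _).1 hxr
      refine lt_of_le_of_lt ?_ ((h.sup (κ n)).2 ⟨n+1, h.mono' n⟩)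
      rw [rank_le_iff]
      intro z hz
      have hzo : z.rank ≤ o := vs_mem_rank hz
      obtain ⟨h1, h2⟩ := (hx' ⟨z, hzo⟩).1 hz
      obtain ⟨b, hb, hzb⟩ := (dom_toZFSet h).1 h1
      have hzb' : z = b.toZFSet := hzb
      rw [hzb', Ordinal.rank_toZFSet]
      by_contra hc
      have h3 := kappa_le h (x := ⟨z, hzo⟩) hzb (not_lt.1 hc)
      have h4 := rank_mono h3
      rw [Ordinal.rank_toZFSet] at h4
      have h5 := (rank_lt_of_mem h2).trans hn
      exact absurd (h5.trans (h.mono' n)) (not_lt.2 h4)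
    obtain ⟨y', hy'⟩ := htot x' hx'r (fun w hw => ((hx' w).1 hw).1) ⟨e', hS⟩
    have hya := (hQ.1 x' y' hy').2
    have h6 := (j_App h _ _ _).1 hy'
    rw [hjx] at h6
    have h7 : y = j y' := hQj.2 x _ _ hxy h6
    have hyr : y'.1.rank < o := by
      have := rank_lt_of_mem hya
      rw [ha] at this
      exact this.trans (by show (α.toZFSet).rank < o; rw [Ordinal.rank_toZFSet]; exact hα)
    exact ⟨y', hya, (hg _ _).2 ⟨hyr, by rw [h7]; exact j_rank_lt h hyr, hya, h7⟩⟩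
  · intro t y y' h1 h2
    exact ((hg _ _).1 h1).2.2.2.trans ((hg _ _).1 h2).2.2.2.symm

end

end Pool.Agent.K7.H40.Mag
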