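import Pool.Agent.K7.H40.Mag.Emb

/-!
# `I1` and the relation `lam → [lam]^{ℵ₀-bd}_{α, < α}`
-/

set_option autoImplicit false

namespace Pool.Agent.K7.H40.Mag

open Cardinal Set SOCat ZFSet

/-- the element of a well-order of type an ordinal as a von Neumann ordinal -/
noncomputable def tz {o : Ordinal.{0}} (a : o.ToType) : ZFSet.{0} := (a.toOrd.1).toZFSet

theorem tz_inj {o : Ordinal.{0}} {a b : o.ToType} (h : tz a = tz b) : a = b :=
  (Ordinal.ToType.mk.symm.injective (Subtype.ext (Ordinal.toZFSet_injective h)))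

theorem tz_rank {o : Ordinal.{0}} (a : o.ToType) : (tz a).rank < o := by
  rw [tz, Ordinal.rank_toZFSet]; exact a.toOrd.2

theorem exists_tz {o β : Ordinal.{0}} (h : β < o) : ∃ a : o.ToType, tz a = β.toZFSet :=
  ⟨Ordinal.ToType.mk ⟨β, h⟩, by rw [tz]; simp⟩

/-- the von Neumann ordinal as an element of `VS o` -/
noncomputable def tv {o : Ordinal.{0}} (a : o.ToType) : VS o := ⟨tz a, (tz_rank a).le⟩

/-- the set of ordinals -/
noncomputable def tX {o : Ordinal.{0}} (s : Set o.ToType) : VS o :=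
  ⟨ZFSet.sep (fun z => ∃ a ∈ s, z = tz a) (ZFSet.vonNeumann o), by
    rw [← ZFSet.subset_vonNeumann]
    intro z hz
    exact (ZFSet.mem_sep.1 hz).1⟩

theorem mem_tX {o : Ordinal.{0}} {s : Set o.ToType} {z : ZFSet.{0}} :
    z ∈ (tX s).1 ↔ ∃ a ∈ s, z = tz a := by
  show z ∈ ZFSet.sep (fun z => ∃ a ∈ s, z = tz a) (ZFSet.vonNeumann o) ↔ _
  rw [ZFSet.mem_sep, ZFSet.mem_vonNeumann]
  constructor
  · exact fun h => h.2
  · rintro ⟨a, ha, rfl⟩
    exact ⟨tz_rank a, a, ha, rfl⟩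

theorem tz_mem_tX {o : Ordinal.{0}} {s : Set o.ToType} {a : o.ToType} :
    tz a ∈ (tX s).1 ↔ a ∈ s := by
  rw [mem_tX]
  constructor
  · rintro ⟨b, hb, h⟩
    rw [tz_inj h]; exact hb
  · exact fun h => ⟨a, h, rfl⟩

theorem tX_inj {o : Ordinal.{0}} {s t : Set o.ToType} (h : tX s = tX t) : s = t := by
  ext a
  rw [← tz_mem_tX, h, tz_mem_tX]

theorem tX_rank {o : Ordinal.{0}} {s : Set o.ToType} {b : o.ToType} (h : ∀ a ∈ s, a < b) :
    (tX s).1.rank < o := by
  refine lt_of_le_of_lt (b := b.toOrd.1) ?_ b.toOrd.2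
  rw [rank_le_iff]
  intro z hz
  obtain ⟨a, ha, rfl⟩ := mem_tX.1 hz
  rw [tz, Ordinal.rank_toZFSet]
  exact Ordinal.ToType.mk.symm.lt_iff_lt.2 (h a ha)

theorem arrowLt_of_I1 {lam : Cardinal.{0}} {j : VS lam.ord → VS lam.ord} {κ : ℕ → Ordinal.{0}}
    (h : IsI1Emb j κ) (α : Cardinal.{0}) (h0 : κ 0 ≤ α.ord) (hα : α < lam) : ArrowLt lam α := by
  classical
  intro f
  have hα' : α.ord < lam.ord := Cardinal.ord_lt_ord.2 hα
  have hωo := omega_le_o h
  have hpos : (0 : Ordinal.{0}) < α.ord :=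
    (lt_of_lt_of_le Ordinal.omega0_pos h.omega_le).trans_le h0
  obtain ⟨c0, -⟩ := exists_tz hpos
  let F : Set lam.ord.ToType → α.ord.ToType := fun s => if h : CtblBdd s then f ⟨s, h⟩ else c0
  obtain ⟨C, hC⟩ := exists_graph h.lim (fun x y => ∃ s : Set lam.ord.ToType, s.Countable ∧
    (∃ b, ∀ a ∈ s, a < b) ∧ x = tX s ∧ y.1 = tz (F s))
  have hFr : ∀ c : α.ord.ToType, (tz c).rank < lam.ord := fun c => (tz_rank c).trans hα'
  have hCs : ∀ s : Set lam.ord.ToType, s.Countable → (∃ b, ∀ a ∈ s, a < b) →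
      App C (tX s) ⟨tz (F s), (hFr _).le⟩ := by
    intro s hs hb
    obtain ⟨b, hb⟩ := hb
    exact (hC _ _).2 ⟨tX_rank hb, hFr _, s, hs, ⟨b, hb⟩, rfl, rfl⟩
  have hQ : Q1 C (IsI1Emb.xo Ordinal.omega0 (omega_le_o h)) (IsI1Emb.xo α.ord hα'.le) := by
    constructor
    · intro x y hxy
      obtain ⟨h1, h2, s, hs, hb, rfl, hy⟩ := (hC _ _).1 hxy
      constructor
      · obtain ⟨enc, henc⟩ := Set.countable_iff_exists_injOn.1 hs
        obtain ⟨e, he⟩ := exists_graph h.lim (fun n y => ∃ a ∈ s,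
          n.1 = ((enc a : ℕ) : Ordinal.{0}).toZFSet ∧ y.1 = tz a)
        refine ⟨e, ?_, ?_⟩
        · intro y hy
          obtain ⟨a, ha, hya⟩ := mem_tX.1 hy
          have hn : ((enc a : ℕ) : Ordinal.{0}) < Ordinal.omega0 := Ordinal.natCast_lt_omega0 _
          refine ⟨⟨((enc a : ℕ) : Ordinal.{0}).toZFSet, ?_⟩, ?_, (he _ _).2 ⟨?_, ?_, a, ha, rfl, hya⟩⟩
          · rw [Ordinal.rank_toZFSet]; exact hn.le.trans hωo
          · exact Ordinal.toZFSet_mem_toZFSet_iff.2 hn
          · rw [Ordinal.rank_toZFSet]; exact hn.trans_le hωo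
          · rw [hya]; exact tz_rank a
        · intro n y y' h3 h4
          obtain ⟨-, -, a, ha, h5, h6⟩ := (he _ _).1 h3
          obtain ⟨-, -, a', ha', h7, h8⟩ := (he _ _).1 h4
          have h9 := Ordinal.toZFSet_injective (h5.symm.trans h7)
          have h10 : enc a = enc a' := by exact_mod_cast h9
          have h11 := henc ha ha' h10
          subst h11
          exact Subtype.ext (h6.trans h8.symm)
      · show y.1 ∈ α.ord.toZFSet
        rw [hy, tz, Ordinal.toZFSet_mem_toZFSet_iff]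
        exact (F s).toOrd.2
    · intro x y y' h1 h2
      obtain ⟨-, -, s, -, -, h3, h4⟩ := (hC _ _).1 h1
      obtain ⟨-, -, s', -, -, h5, h6⟩ := (hC _ _).1 h2
      have h7 := tX_inj (h3.symm.trans h5)
      subst h7
      exact Subtype.ext (h4.trans h6.symm)
  have htot : ∀ x : VS lam.ord, x.1.rank < lam.ord → (∀ y : VS lam.ord, y.1 ∈ x.1 → dom y) →
      (∃ e : VS lam.ord, Surj e (IsI1Emb.xo Ordinal.omega0 (omega_le_o h)) x) →
      ∃ y : VS lam.ord, App C x y := by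
    rintro x hx hd ⟨e, he⟩
    let s : Set lam.ord.ToType := {a | tz a ∈ x.1}
    have hsx : tX s = x := by
      apply vs_ext
      intro z
      rw [mem_tX]
      constructor
      · rintro ⟨a, ha, rfl⟩
        exact ha
      · intro hz
        obtain ⟨β, hβ, hzβ⟩ := (dom_toZFSet h).1 (hd (down hz) hz)
        obtain ⟨a, ha⟩ := exists_tz hβ
        have hza : z = tz a := by rw [ha]; exact hzβ
        exact ⟨a, by show tz a ∈ x.1; rw [← hza]; exact hz, hza⟩
    have hsc : s.Countable := by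
      have h1 : ∀ a : s, ∃ n : ℕ, ∃ hn : (n : Ordinal.{0}) ≤ lam.ord,
          App e (IsI1Emb.xo (n : Ordinal.{0}) hn) (tv a.1) := by
        intro a
        obtain ⟨n, hn, hna⟩ := he.1 (tv a.1) a.2
        obtain ⟨β, hβ, hnβ⟩ := Ordinal.mem_toZFSet_iff.1 hn
        obtain ⟨m, rfl⟩ := Ordinal.lt_omega0.1 hβ
        refine ⟨m, (Ordinal.natCast_lt_omega0 m).le.trans hωo, ?_⟩
        have : n = IsI1Emb.xo (m : Ordinal.{0}) ((Ordinal.natCast_lt_omega0 m).le.trans hωo) :=
          Subtype.ext hnβ.symm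
        rw [← this]
        exact hna
      choose n hn hna using h1
      have hninj : Function.Injective n := by
        intro a b hab
        have h2 := hna b
        have h3 := hna a
        simp only [hab] at h3
        have h4 := he.2 _ _ _ h3 h2
        exact Subtype.ext (tz_inj (congrArg Subtype.val h4))
      exact Set.countable_coe_iff.1 hninj.countable
    have hsb : ∃ b, ∀ a ∈ s, a < b := by
      refine ⟨Ordinal.ToType.mk ⟨x.1.rank, hx⟩, fun a ha => ?_⟩
      have h1 := rank_lt_of_mem (show tz a ∈ x.1 from ha)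
      rw [tz, Ordinal.rank_toZFSet] at h1
      rw [← Ordinal.ToType.mk.symm.lt_iff_lt, OrderIso.symm_apply_apply]
      exact h1
    rw [← hsx]
    exact ⟨_, hCs s hsc hsb⟩
  obtain ⟨B, g1, ⟨hB, hBt, hBi⟩, b, hb, g, hg, hgf⟩ := phi_of h h0 hα' C hQ htot
  refine ⟨{a | tz a ∈ B.1}, ?_, ?_⟩
  · apply le_antisymm
    · calc #{a : lam.ord.ToType | tz a ∈ B.1} ≤ #(lam.ord.ToType) := Cardinal.mk_set_le _
        _ = lam := by rw [Cardinal.mk_toType, Cardinal.card_ord]
    · have h1 : ∀ a : lam.ord.ToType, ∃ a' : {a : lam.ord.ToType | tz a ∈ B.1},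
          App g1 (tv a) (tv a'.1) := by
        intro a
        obtain ⟨y, hy, hay⟩ := hBt (tv a) ((dom_toZFSet h).2 ⟨_, a.toOrd.2, rfl⟩)
        obtain ⟨β, hβ, hyβ⟩ := (dom_toZFSet h).1 (hB y hy)
        obtain ⟨a', ha'⟩ := exists_tz hβ
        have h2 : y = tv a' := Subtype.ext (by rw [hyβ, ← ha']; rfl)
        refine ⟨⟨a', ?_⟩, by rw [← h2]; exact hay⟩
        show tz a' ∈ B.1
        rw [ha', ← hyβ]
        exact hy
      choose F' hF' using h1
      have h3 : Function.Injective F' := by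
        intro a a' haa
        have h4 := hF' a'
        rw [← haa] at h4
        exact tz_inj (congrArg Subtype.val (hBi _ _ _ (hF' a) h4))
      have h5 := Cardinal.mk_le_of_injective h3
      rwa [Cardinal.mk_toType, Cardinal.card_ord] at h5
  · obtain ⟨β, hβ, hbβ⟩ := Ordinal.mem_toZFSet_iff.1 hb
    have h1 : ∀ γ : {γ | ∃ x : {x : Set lam.ord.ToType // CtblBdd x},
        x.1 ⊆ {a | tz a ∈ B.1} ∧ f x = γ}, ∃ τ : Iio β, ∃ hτ : τ.1 ≤ lam.ord,
        App g (IsI1Emb.xo τ.1 hτ) ⟨tz γ.1, (hFr _).le⟩ := by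
      rintro ⟨γ, x, hx, rfl⟩
      have h2 := hCs x.1 x.2.2.1 x.2.2.2
      have hFx : F x.1 = f x := dif_pos x.2
      simp only [hFx] at h2
      obtain ⟨t, ht, htg⟩ := hg _ _ h2 (sub_iff.2 (by
        intro z hz
        obtain ⟨a, ha, rfl⟩ := mem_tX.1 hz
        exact hx ha))
      rw [← hbβ] at ht
      obtain ⟨τ, hτ, htτ⟩ := Ordinal.mem_toZFSet_iff.1 ht
      have hτo : τ ≤ lam.ord := (hτ.trans (hβ.trans hα')).le
      refine ⟨⟨τ, hτ⟩, hτo, ?_⟩
      have h3 : t = IsI1Emb.xo τ hτo := Subtype.ext htτ.symm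
      rw [← h3]
      exact htg
    choose τ hτ hτg using h1
    have h2 : Function.Injective τ := by
      intro γ γ' hγ
      have h3 := hτg γ
      have h4 := hτg γ'
      simp only [hγ] at h3
      exact Subtype.ext (tz_inj (congrArg Subtype.val (hgf _ _ _ h3 h4)))
    have h3 := Cardinal.mk_le_of_injective (f := ULift.up.{1} ∘ fun x : ULift.{1} _ => τ x.down) (by
      intro x y hxy
      exact ULift.down_injective (h2 (ULift.up_injective hxy)))
    rw [Cardinal.mk_uLift, Cardinal.mk_uLift, Cardinal.mk_Iio_ordinal, Cardinal.lift_lift] at h3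
    refine lt_of_le_of_lt ?_ (Cardinal.lt_ord.1 hβ)
    exact (Cardinal.lift_le.{1}).1 (by simpa using h3)

end Pool.Agent.K7.H40.Mag
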