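import Pool.Agent.K7.H40.Mag.StepUp
import Pool.Agent.K7.H40.Mag.I1Arrow

/-!
# Suitable cardinals `μ` below an `I1` cardinal
-/

set_option autoImplicit false

namespace Pool.Agent.K7.H40.Mag

open Cardinal Set SOCat ZFSet Ordinal

theorem pow_aleph0_of_strongLimit {μ : Cardinal.{0}} (hμ : μ.IsStrongLimit)
    (hcof : ℵ₀ < μ.ord.cof) : μ ^ ℵ₀ = μ := by
  apply le_antisymm
  · have h0 : ℵ₀ ≤ μ := hμ.aleph0_le
    have h1 : ∀ b : μ.ord.ToType, #(ℕ → Iio b) ≤ μ := by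
      intro b
      have h2 : #(Iio b) < μ := mk_Iio_lt' b
      have h3 : #(ℕ → Iio b) = #(Iio b) ^ ℵ₀ := by simp
      rw [h3]
      calc #(Iio b) ^ ℵ₀ ≤ ((2 : Cardinal.{0}) ^ #(Iio b)) ^ ℵ₀ :=
            Cardinal.power_le_power_right (Cardinal.cantor _).le
        _ = 2 ^ (#(Iio b) * ℵ₀) := by rw [Cardinal.power_mul]
        _ ≤ μ := (hμ.isStrongPrelimit (Cardinal.mul_lt_of_lt h0 h2
            (lt_of_lt_of_le hcof (Ordinal.cof_ord_le μ)))).le
    have h4 : μ ^ ℵ₀ = #(ℕ → μ.ord.ToType) := by simp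
    rw [h4]
    have h5 : ∀ f : ℕ → μ.ord.ToType, ∃ b, ∀ n, f n < b := by
      intro f
      obtain ⟨b, hb⟩ := bdd_cof (Set.range f)
        ((Cardinal.le_aleph0_iff_set_countable.2 (Set.countable_range f)).trans_lt hcof)
      exact ⟨b, fun n => hb _ ⟨n, rfl⟩⟩
    choose b hb using h5
    have h6 : #(ℕ → μ.ord.ToType) ≤ #(Σ b : μ.ord.ToType, ℕ → Iio b) :=
      Cardinal.mk_le_of_surjective
        (f := fun x : (Σ b : μ.ord.ToType, ℕ → Iio b) => fun n => (x.2 n).1)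
        (fun f => ⟨⟨b f, fun n => ⟨f n, hb f n⟩⟩, rfl⟩)
    refine h6.trans ?_
    rw [Cardinal.mk_sigma]
    refine (Cardinal.sum_le_sum _ (fun _ => μ) h1).trans ?_
    rw [Cardinal.sum_const', Cardinal.mk_toType, Cardinal.card_ord, Cardinal.mul_eq_self h0]
  · exact Cardinal.self_le_power μ Cardinal.one_le_aleph0

theorem preBeth_lt {lam : Cardinal.{0}} {j : VS lam.ord → VS lam.ord} {κ : ℕ → Ordinal.{0}}
    (h : IsI1Emb j κ) {γ : Ordinal.{0}} {n : ℕ} (hγ : γ < κ n) : preBeth γ < (κ n).card := by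
  have h1 := h.card_Sm_lt hγ
  have h2 : #(Sm γ) = Cardinal.lift.{1} (preBeth γ) := by
    rw [← card_vonNeumann, ← cardinalMk_coe_sort]
    refine Cardinal.mk_congr (Equiv.subtypeEquivRight fun x => ?_)
    exact (ZFSet.mem_vonNeumann).symm
  rw [h2, Cardinal.mk_Iio_ordinal, Cardinal.lift_lt] at h1
  exact h1

theorem isNormal_ord_preBeth : Order.IsNormal fun o : Ordinal.{0} => (preBeth o).ord := by
  rw [Order.isNormal_iff]
  refine ⟨fun a b hab => Cardinal.ord_lt_ord.2 (preBeth_strictMono hab), fun o ho a ha => ?_⟩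
  rw [Cardinal.ord_le]
  exact (Order.isNormal_iff.1 isNormal_preBeth).2 o ho a.card fun b hb => Cardinal.ord_le.1 (ha b hb)

theorem exists_mu {lam : Cardinal.{0}} {j : VS lam.ord → VS lam.ord} {κ : ℕ → Ordinal.{0}}
    (h : IsI1Emb j κ) : ∃ μ : Cardinal.{0}, κ 0 ≤ μ.ord ∧ μ.IsSingular ∧
      μ < lam ∧ μ ^ ℵ₀ = μ := by
  have hlim : Order.IsSuccLimit (ω_ 1 : Ordinal.{0}) := by
    rw [← Cardinal.ord_aleph]
    exact Cardinal.isSuccLimit_ord (Cardinal.aleph0_le_aleph 1)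
  have hlim' : Order.IsSuccLimit (κ 0 + ω_ 1) := (Ordinal.isNormal_add_right (κ 0)).map_isSuccLimit hlim
  have hcof1 : (κ 0 + ω_ 1).cof = ℵ_ 1 := by
    rw [Ordinal.cof_map_of_isNormal (Ordinal.isNormal_add_right (κ 0)) hlim]
    exact isRegular_aleph_one.cof_omega_eq
  have hcof : (preBeth (κ 0 + ω_ 1)).ord.cof = ℵ_ 1 := by
    rw [Ordinal.cof_map_of_isNormal isNormal_ord_preBeth hlim', hcof1]
  have hinf : ℵ₀ ≤ (κ 0).card := Ordinal.aleph0_le_card.2 h.omega_le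
  have hinf1 : ℵ₀ ≤ preBeth (κ 0) := hinf.trans (Ordinal.card_le_preBeth _)
  have h01 : κ 0 < κ 1 := h.lt01
  have h1 : κ 0 + 1 < κ 1 := by
    refine lt_of_le_of_ne (Order.add_one_le_of_lt h01) fun e => ?_
    have h2 := preBeth_lt h h01
    rw [← e, Ordinal.card_add, Ordinal.card_one, Cardinal.add_one_eq hinf] at h2
    exact absurd ((Ordinal.card_le_preBeth (κ 0)).trans_lt h2) (lt_irrefl _)
  have h2 : preBeth (κ 0 + 1) < (κ 1).card := preBeth_lt h h1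
  have h3 : ℵ_ 1 ≤ preBeth (κ 0 + 1) := by
    rw [preBeth_add_one, ← Cardinal.succ_aleph0]
    exact Order.succ_le_of_lt (hinf1.trans_lt (Cardinal.cantor _))
  have h4 : κ 0 + ω_ 1 < κ 1 := by
    by_contra hc
    rw [not_lt] at hc
    have h5 := Ordinal.card_le_card hc
    rw [Ordinal.card_add, Ordinal.card_omega] at h5
    refine absurd h5 (not_le.2 (lt_of_le_of_lt ?_ h2))
    calc (κ 0).card + ℵ_ 1 ≤ preBeth (κ 0 + 1) + preBeth (κ 0 + 1) :=
          add_le_add ((Ordinal.card_le_preBeth _).trans (preBeth_mono (le_self_add))) h3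
      _ = preBeth (κ 0 + 1) := Cardinal.add_eq_self ((Cardinal.aleph0_le_aleph 1).trans h3)
  have hμ1 : preBeth (κ 0 + 1) < preBeth (κ 0 + ω_ 1) := by
    refine preBeth_strictMono ?_
    have : (1 : Ordinal.{0}) < ω_ 1 := Ordinal.one_lt_omega0.trans_le (Ordinal.omega0_le_omega 1)
    gcongr
  have hsl : (preBeth (κ 0 + ω_ 1)).IsStrongLimit := isStrongLimit_preBeth.2 hlim'
  refine ⟨preBeth (κ 0 + ω_ 1), ?_, ?_, ?_, ?_⟩
  · refine (Cardinal.lt_ord.2 (((Ordinal.card_le_preBeth _).trans ?_).trans_lt hμ1)).le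
    exact preBeth_mono le_self_add
  · rw [isSingular_iff]
    refine ⟨hsl.aleph0_le, ?_⟩
    rw [hcof]
    exact (h3.trans_lt hμ1).ne
  · refine (preBeth_lt h h4).trans ?_
    exact Cardinal.lt_ord.1 ((h.sup _).2 ⟨2, h.mono' 1⟩)
  · exact pow_aleph0_of_strongLimit hsl (by rw [hcof]; exact Cardinal.aleph0_lt_aleph_one)

theorem succ_lt {lam : Cardinal.{0}} {j : VS lam.ord → VS lam.ord} {κ : ℕ → Ordinal.{0}}
    (h : IsI1Emb j κ) {μ : Cardinal.{0}} (hμ : μ < lam) : Order.succ μ < lam := by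
  obtain ⟨n, hn⟩ := (h.sup μ.ord).1 (Cardinal.ord_lt_ord.2 hμ)
  have h1 : μ.ord + 1 < κ (n+1) := (Order.add_one_le_of_lt hn).trans_lt (h.mono' n)
  have h2 := preBeth_lt h h1
  rw [preBeth_add_one] at h2
  have h3 : (κ (n+1)).card < lam := Cardinal.lt_ord.1 ((h.sup _).2 ⟨n+2, h.mono' (n+1)⟩)
  refine lt_of_le_of_lt ?_ (h2.trans h3)
  exact Order.succ_le_of_lt ((Cardinal.le_preBeth_ord μ).trans_lt (Cardinal.cantor _))

theorem cof_of_I1 {lam : Cardinal.{0}} {j : VS lam.ord → VS lam.ord} {κ : ℕ → Ordinal.{0}}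
    (h : IsI1Emb j κ) : lam.ord.cof = ℵ₀ := by
  have hω : ω ≤ lam.ord := omega_le_o h
  have hlam : ℵ₀ ≤ lam := by
    have := Ordinal.card_le_card hω
    rwa [Ordinal.card_omega0, Cardinal.card_ord] at this
  apply le_antisymm
  · have h1 : IsCofinal (Set.range fun n : ℕ =>
        (Ordinal.ToType.mk ⟨κ n, (h.sup _).2 ⟨n+1, h.mono' n⟩⟩ : lam.ord.ToType)) := by
      intro a
      obtain ⟨n, hn⟩ := (h.sup a.toOrd.1).1 a.toOrd.2
      refine ⟨_, ⟨n, rfl⟩, ?_⟩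
      rw [← Ordinal.ToType.mk.symm.le_iff_le, OrderIso.symm_apply_apply]
      exact hn.le
    have h2 := Order.cof_le h1
    rw [Ordinal.cof_toType] at h2
    exact h2.trans (Cardinal.le_aleph0_iff_set_countable.2 (Set.countable_range _))
  · exact aleph0_le_cof hlam

end Pool.Agent.K7.H40.Mag
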