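import Pool.Agent.K7.H40.Mag.Pos

/-!
# Infinite named sets
-/

set_option autoImplicit false

namespace Pool.Agent.K7.H40.Mag

open Cardinal Set Pool.Agent.Helper292.SP Pool.Agent.H631R2

variable {P : Type} [Preorder P]

theorem inf_iff {X : Type} {E : X → Set P} {q : P} :
    q ∈ fnot (FinN E) ↔ ∀ r ≤ q, ∀ s : Finset X, ∃ a, a ∉ s ∧ ∃ r' ≤ r, r' ∈ meets (E a) := by
  constructor
  · intro h r hr s
    by_contra hcon
    push Not at hcon
    refine h r hr (fex_of_mem s (dn_fall fun _ => dn_fimp _ _) fun a => ?_)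
    refine mem_fimp.2 fun t ht hta => ⟨t, le_rfl, ?_⟩
    by_contra ha
    exact hcon a ha t ht hta
  · intro h r hr hfin
    obtain ⟨r1, hr1, s, hs⟩ := mem_fex.1 hfin r le_rfl
    obtain ⟨a, ha, r2, hr2, h2⟩ := h r1 (hr1.trans hr) s
    obtain ⟨r3, _, h3⟩ := mem_fimp.1 (hs a) r2 hr2 h2
    exact ha h3

theorem inf_mono {X : Type} {E E' : X → Set P} {q : P} (hE : q ∈ fnot (FinN E))
    (h : ∀ r ≤ q, ∀ a, r ∈ meets (E a) → r ∈ meets (E' a)) : q ∈ fnot (FinN E') := by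
  rw [inf_iff] at hE ⊢
  intro r hr s
  obtain ⟨a, ha, r', hr', h'⟩ := hE r hr s
  exact ⟨a, ha, r', hr', h r' (hr'.trans hr) a h'⟩

theorem fin_mono {X : Type} {E E' : X → Set P} {q : P} (hE : q ∈ FinN E')
    (h : ∀ r ≤ q, ∀ a, r ∈ meets (E a) → r ∈ meets (E' a)) : q ∈ FinN E := by
  refine mem_fex.2 fun r hr => ?_
  obtain ⟨r1, hr1, s, hs⟩ := mem_fex.1 hE r hr
  refine ⟨r1, hr1, s, fun a => mem_fimp.2 fun t ht hta => ?_⟩
  exact mem_fimp.1 (hs a) t ht (h t (ht.trans (hr1.trans hr)) a hta)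

theorem exists_inf {X : Type} {E : X → Set P} {q : P} (h : q ∉ FinN E) :
    ∃ r ≤ q, r ∈ fnot (FinN E) := by
  by_contra hcon
  push Not at hcon
  refine h (mem_fex.2 fun r hr => ?_)
  have h1 := hcon r hr
  by_contra h2
  push Not at h2
  exact h1 (not_fex h2)

/-- restriction of a named set to a set of the ground model -/
def restr {X : Type} (E : X → Set P) (z : Set X) : X → Set P := fun a => {r | a ∈ z ∧ r ∈ E a}

theorem meets_restr {X : Type} {E : X → Set P} {z : Set X} {a : X} {r : P} :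
    r ∈ meets (restr E z a) ↔ a ∈ z ∧ r ∈ meets (E a) := by
  constructor
  · intro h
    refine ⟨?_, fun q hq => ?_⟩
    · obtain ⟨_, _, s, hs, _⟩ := h r le_rfl
      exact hs.1
    · obtain ⟨t, ht, s, hs, hts⟩ := h q hq
      exact ⟨t, ht, s, hs.2, hts⟩
  · rintro ⟨ha, h⟩ q hq
    obtain ⟨t, ht, s, hs, hts⟩ := h q hq
    exact ⟨t, ht, s, ⟨ha, hs⟩, hts⟩

/-- closing off under countably many countable-valued finitary operations -/
theorem exists_closed {L : Type} (g : Finset L → Set L) (hg : ∀ f, (g f).Countable) :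
    ∃ z : Set L, z.Countable ∧ (∀ f : Finset L, (f : Set L) ⊆ z → g f ⊆ z) ∧ z ⊆ ⋃ f, g f := by
  let Z : ℕ → Set L := fun n => Nat.rec (∅ : Set L)
    (fun _ z => z ∪ ⋃ f ∈ {f : Finset L | (f : Set L) ⊆ z}, g f) n
  have hZs : ∀ n, Z (n+1) = Z n ∪ ⋃ f ∈ {f : Finset L | (f : Set L) ⊆ Z n}, g f := fun n => rfl
  have hc : ∀ n, (Z n).Countable := by
    intro n
    induction n with
    | zero => exact Set.countable_empty
    | succ n ih =>
      rw [hZs]
      exact ih.union ((Set.countable_ofPred_finite_subset ih |>.preimage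
        (f := fun f : Finset L => (f : Set L)) (Finset.coe_injective) |>.mono (by
          intro f hf
          exact ⟨f.finite_toSet, hf⟩)).biUnion fun f _ => hg f)
  have hm : Monotone Z := monotone_nat_of_le_succ fun n => by
    rw [hZs]; exact Set.subset_union_left
  refine ⟨⋃ n, Z n, Set.countable_iUnion hc, ?_, ?_⟩
  · intro f hf
    have h1 : ∃ n, (f : Set L) ⊆ Z n := by
      choose n hn using (fun a : f => Set.mem_iUnion.1 (hf a.2))
      exact ⟨Finset.univ.sup n, fun a ha =>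
        hm (Finset.le_sup (f := n) (Finset.mem_univ ⟨a, ha⟩)) (hn ⟨a, ha⟩)⟩
    obtain ⟨n, hn⟩ := h1
    refine subset_trans ?_ (Set.subset_iUnion Z (n+1))
    rw [hZs]
    exact subset_trans (Set.subset_biUnion_of_mem (u := fun f => g f) hn) Set.subset_union_right
  · refine Set.iUnion_subset fun n => ?_
    induction n with
    | zero => exact Set.empty_subset _
    | succ n ih =>
      rw [hZs]
      exact Set.union_subset ih (Set.iUnion₂_subset fun f _ => Set.subset_iUnion g f)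

/-- a named subset of full size has infinite intersection with a countable bounded set of the
ground model -/
theorem exists_ctbl (hP : CCC P) {L : Type} [LinearOrder L] (hL : ℵ₀ < #L) (b : ℕ → L)
    (hb : ∀ a, ∃ n, a < b n) {A : L → Set P} {q : P} (hA : q ∈ FullN A) :
    ∃ z : Set L, CtblBdd z ∧ ∃ r ≤ q, r ∈ fnot (FinN (restr A z)) := by
  by_contra hcon
  push Not at hcon
  obtain ⟨q1, hq1, R, hR, hinj, hRA⟩ := mem_fex.1 hA q le_rfl
  -- the set of possible elements is decided to be finite below each `b n`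
  have h1 : ∀ n, ∀ r ≤ q1, ∃ s ≤ r, ∃ f : Finset L, ∀ a, a ∉ f → a < b n →
      ∀ s' ≤ s, s' ∉ meets (A a) := by
    intro n r hr
    by_contra h2
    push Not at h2
    have h3 : ∀ f : Finset L, ∃ W : Set P, W ⊆ {s | ∃ a, a ∉ f ∧ a < b n ∧ s ∈ meets (A a)} ∧
        W.Countable ∧ ∀ u ∈ {s | ∃ a, a ∉ f ∧ a < b n ∧ s ∈ meets (A a)},
          ∃ v ≤ u, ∃ w ∈ W, v ≤ w := fun f => predense hP _
    choose W hW1 hW2 hW3 using h3
    choose e he1 he2 he3 using fun (f : Finset L) (w : W f) => hW1 f w.2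
    obtain ⟨z, hzc, hzcl, hzs⟩ := exists_closed (fun f => Set.range (e f)) (fun f => by
      have := (hW2 f).to_subtype
      exact Set.countable_range _)
    have hzb : ∀ a ∈ z, a < b n := by
      intro a ha
      obtain ⟨f, hf⟩ := Set.mem_iUnion.1 (hzs ha)
      obtain ⟨w, rfl⟩ := hf
      exact he2 f w
    have key : ∀ s ≤ r, ∀ f : Finset L, ∃ a ∈ z, a ∉ f ∧ ∃ s' ≤ s, s' ∈ meets (A a) := by
      intro s hs f
      classical
      let f' : Finset L := f.filter (· ∈ z)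
      have hf' : (f' : Set L) ⊆ z := fun a ha => (Finset.mem_filter.1 ha).2
      obtain ⟨a, ha1, ha2, s1, hs1, ha3⟩ := h2 s hs f'
      obtain ⟨v, hv, w, hw, hvw⟩ := hW3 f' s1 ⟨a, ha1, ha2, ha3⟩
      have hz : e f' ⟨w, hw⟩ ∈ z := hzcl f' hf' ⟨⟨w, hw⟩, rfl⟩
      refine ⟨e f' ⟨w, hw⟩, hz, fun hf => ?_, v, hv.trans hs1, down_meets (he3 f' ⟨w, hw⟩) hvw⟩
      exact he1 f' ⟨w, hw⟩ (Finset.mem_filter.2 ⟨hf, hz⟩)
    refine hcon z ⟨?_, hzc, b n, hzb⟩ r (hr.trans hq1) ?_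
    · intro hfin
      obtain ⟨a, ha, ha', _⟩ := key r le_rfl hfin.toFinset
      exact ha' (hfin.mem_toFinset.2 ha)
    · refine inf_iff.2 fun s hs f => ?_
      obtain ⟨a, ha, ha', s', hs', h4⟩ := key s hs f
      exact ⟨a, ha', s', hs', meets_restr.2 ⟨ha, h4⟩⟩
  have h2 : ∀ n, ∃ W : Set P, W ⊆ {s | s ≤ q1 ∧ ∃ f : Finset L, ∀ a, a ∉ f → a < b n →
      ∀ s' ≤ s, s' ∉ meets (A a)} ∧ W.Countable ∧
      ∀ u ∈ {s | s ≤ q1 ∧ ∃ f : Finset L, ∀ a, a ∉ f → a < b n →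
      ∀ s' ≤ s, s' ∉ meets (A a)}, ∃ v ≤ u, ∃ w ∈ W, v ≤ w := fun n => predense hP _
  choose W hW1 hW2 hW3 using h2
  choose f hf using fun (n : ℕ) (w : W n) => (hW1 n w.2).2
  let Z : Set L := ⋃ n, ⋃ w : W n, (f n w : Set L)
  have hZ : Z.Countable := Set.countable_iUnion fun n => by
    have := (hW2 n).to_subtype
    exact Set.countable_iUnion fun w => (f n w).finite_toSet.countable
  have h3 : ∀ x : L, ∃ s ≤ q1, ∃ c : Z, s ∈ meets (R x c.1) := by
    intro x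
    obtain ⟨s, hs, c, hc⟩ := IsFun_tot R q1 hR q1 le_rfl x
    obtain ⟨n, hn⟩ := hb c
    obtain ⟨s1, hs1, g, hg⟩ := h1 n s hs
    obtain ⟨s2, hs2, w, hw, hsw⟩ := hW3 n s1 ⟨hs1.trans hs, g, hg⟩
    refine ⟨s2, hs2.trans (hs1.trans hs), ⟨c, ?_⟩, down_meets hc (hs2.trans hs1)⟩
    refine Set.mem_iUnion.2 ⟨n, Set.mem_iUnion.2 ⟨⟨w, hw⟩, ?_⟩⟩
    by_contra hcf
    obtain ⟨s3, hs3, h4⟩ := mem_fimp.1 (hRA x c) s2 (hs2.trans (hs1.trans hs))
      (down_meets hc (hs2.trans hs1))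
    exact hf n ⟨w, hw⟩ c hcf hn s3 (hs3.trans hsw) h4
  choose s hs c hc using h3
  have h4 := hP.mk_le c s (by
    rintro x x' hne hcc ⟨t, ht, ht'⟩
    apply hne
    obtain ⟨t', _, h5⟩ := mem_fimp.1 (hinj x x' (c x).1) t (ht.trans (hs x))
      ⟨down_meets (hc x) ht, by rw [hcc]; exact down_meets (hc x') ht'⟩
    exact h5)
  have h5 : #Z * ℵ₀ ≤ ℵ₀ := by
    calc #Z * ℵ₀ ≤ ℵ₀ * ℵ₀ := mul_le_mul' (Cardinal.le_aleph0_iff_set_countable.mpr hZ) le_rfl
      _ = ℵ₀ := Cardinal.mul_eq_self le_rfl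
  exact absurd (h4.trans h5) (not_le.2 hL)

end Pool.Agent.K7.H40.Mag
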