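import Pool.Agent.K7.H40.Mag.Neg
import Pool.Agent.K7.H40.Mag.Exist

/-!
# Forced statements
-/

set_option autoImplicit false

namespace Pool.Agent.K7.H40.Mag

open Cardinal Set Pool.Agent.Helper292.SP Pool.Agent.H631R2

section

variable {P : Type} [Preorder P]

theorem isFun_ground {X Y : Type} (g : X → Y) (p : P) :
    p ∈ IsFun (P := P) fun x y => {_r : P | g x = y} := by
  refine ⟨fun x => mem_fex.2 fun s _ => ⟨s, le_rfl, g x, meets_cst.2 rfl⟩, fun x y y' => ?_⟩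
  refine mem_fimp.2 fun s _ h => ⟨s, le_rfl, ?_⟩
  exact (meets_cst.1 h.1).symm.trans (meets_cst.1 h.2)

theorem isCard_of (hP : CCC P) (c : Cardinal.{0}) (hc : ℵ₀ < c) (p : P) :
    p ∈ IsCard P c.ord.ToType := by
  intro a
  refine not_fex fun q _ F hF => ?_
  have h1 : ∀ y : c.ord.ToType, ∃ r ≤ q, ∃ x, r ∈ meets (F x y) := by
    intro y
    obtain ⟨r, hr, h2⟩ := mem_fimp.1 (hF.2 y) q le_rfl
      (fun s _ => ⟨s, le_rfl, s, Set.mem_univ _, le_rfl⟩)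
    obtain ⟨s, hs, x, hx⟩ := mem_fex.1 h2 r le_rfl
    exact ⟨s, hs.trans hr, x, hx⟩
  choose r hr x hx using h1
  have h2 := hP.mk_le x r (by
    rintro y y' hne hxx ⟨s, hs, hs'⟩
    apply hne
    refine IsFun_fun F q hF.1 s (hs.trans (hr y)) (x y) y y' (down_meets (hx y) hs) ?_
    rw [hxx]
    exact down_meets (hx y') hs')
  rw [Cardinal.mk_toType, Cardinal.card_ord] at h2
  exact absurd h2 (not_le.2 (Cardinal.mul_lt_of_lt hc.le (mk_Iio_lt' a) hc))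

theorem cofOmega_of (lam : Cardinal.{0}) (b : ℕ → lam.ord.ToType) (hb : ∀ a, ∃ n, a < b n) (p : P) :
    p ∈ CofOmegaN P lam.ord.ToType := by
  refine mem_fex.2 fun q _ => ⟨q, le_rfl, fun n z => {_r | b n = z}, isFun_ground b q, fun c => ?_⟩
  obtain ⟨n, hn⟩ := hb c
  refine mem_fex.2 fun r _ => ⟨r, le_rfl, n, ?_⟩
  exact mem_fex.2 fun s _ => ⟨s, le_rfl, b n, meets_cst.2 rfl, hn⟩

theorem singular_of (μ : Cardinal.{0}) (hμ : μ.IsSingular) (p : P) :
    p ∈ SingularN P μ.ord.ToType := by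
  obtain ⟨S, hS, hScof⟩ := exists_cofinal μ hμ.aleph0_le
  obtain ⟨b, hb⟩ := hA_ord μ S (by
    rw [Cardinal.mk_toType, Cardinal.card_ord, hS]; exact hμ.cof_ord_lt)
  obtain ⟨e⟩ := (Cardinal.le_def _ _).1 hb
  have hne : Nonempty S := by
    obtain ⟨d, hd, -⟩ := hScof b
    exact ⟨⟨d, hd⟩⟩
  let g : Iio b → μ.ord.ToType := fun x => (Function.invFun e x).1
  have hg : ∀ d ∈ S, ∃ x, g x = d := fun d hd => ⟨e ⟨d, hd⟩, by
    show (Function.invFun e (e ⟨d, hd⟩)).1 = d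
    rw [Function.leftInverse_invFun e.injective]⟩
  refine mem_fex.2 fun q _ => ⟨q, le_rfl, b, ?_⟩
  refine mem_fex.2 fun q' _ => ⟨q', le_rfl, fun x z => {_r | g x = z}, isFun_ground g q', fun c => ?_⟩
  obtain ⟨d, hd, hcd⟩ := hScof c
  obtain ⟨x, hx⟩ := hg d hd
  refine mem_fex.2 fun r _ => ⟨r, le_rfl, x, ?_⟩
  exact mem_fex.2 fun s _ => ⟨s, le_rfl, d, meets_cst.2 hx, hcd⟩

theorem succ_of (hP : CCC P) (μ : Cardinal.{0}) (hμ : ℵ₀ ≤ μ) (p : P) :
    p ∈ SuccN P μ.ord.ToType (Order.succ μ).ord.ToType := by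
  refine ⟨hP.noOnto ?_ ?_ p, fun b => ?_⟩
  · rw [Cardinal.mk_toType, Cardinal.card_ord]; exact hμ
  · rw [Cardinal.mk_toType, Cardinal.card_ord, Cardinal.mk_toType, Cardinal.card_ord]
    exact Order.lt_succ μ
  · have h1 : #(Iio b) ≤ #μ.ord.ToType := by
      rw [Cardinal.mk_toType, Cardinal.card_ord]; exact mk_Iio_succ b
    obtain ⟨e⟩ := (Cardinal.le_def _ _).1 h1
    refine mem_fex.2 fun q _ => ⟨q, le_rfl, fun x z => {_r | e x = z}, isFun_ground e q, ?_⟩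
    intro x x' y
    refine mem_fimp.2 fun s _ h => ⟨s, le_rfl, ?_⟩
    exact e.injective ((meets_cst.1 h.1).trans (meets_cst.1 h.2).symm)

end

/-- The conclusion: the forcing `Cond (μ × ω)` which adds `μ` Cohen reals has the countable chain
condition, and each of its conditions forces that `μ` is a singular cardinal, the ground model
cardinal `μ⁺` is the cardinal successor of `μ`, `lam` is a Magidor cardinal, and
`α_M (lam) = μ⁺`. -/
def Conclusion (lam μ : Cardinal.{0}) : Prop :=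
  CCC (Cond (μ.ord.ToType × ℕ)) ∧ ∀ p : Cond (μ.ord.ToType × ℕ),
    p ∈ IsCard (Cond (μ.ord.ToType × ℕ)) μ.ord.ToType ∧
    p ∈ SingularN (Cond (μ.ord.ToType × ℕ)) μ.ord.ToType ∧
    p ∈ IsCard (Cond (μ.ord.ToType × ℕ)) (Order.succ μ).ord.ToType ∧
    p ∈ SuccN (Cond (μ.ord.ToType × ℕ)) μ.ord.ToType (Order.succ μ).ord.ToType ∧
    p ∈ MagidorN (Cond (μ.ord.ToType × ℕ)) lam.ord.ToType ∧
    p ∈ AlphaMN (Cond (μ.ord.ToType × ℕ)) lam.ord.ToType (Order.succ μ).ord.ToType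

theorem main (lam μ : Cardinal.{0}) (hcof : lam.ord.cof = ℵ₀) (hμ : μ.IsSingular) (hμl : μ < lam)
    (hpow : μ ^ ℵ₀ = μ) (h : ArrowLt lam (Order.succ μ)) : Conclusion lam μ := by
  have hP : CCC (Cond (μ.ord.ToType × ℕ)) := Cond.ccc
  have hω : ℵ₀ < μ := by
    have h1 : (2 : Cardinal.{0}) ^ ℵ₀ ≤ μ ^ ℵ₀ :=
      Cardinal.power_le_power_right ((Cardinal.natCast_lt_aleph0 (n := 2)).le.trans hμ.aleph0_le)
    rw [hpow] at h1
    exact (Cardinal.cantor ℵ₀).trans_le h1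
  have hM : #μ.ord.ToType = μ := by rw [Cardinal.mk_toType, Cardinal.card_ord]
  have hL : #(lam.ord.ToType) = lam := by rw [Cardinal.mk_toType, Cardinal.card_ord]
  have hPμ : #(Cond (μ.ord.ToType × ℕ)) ≤ μ := (mk_Cond_le (by rw [hM]; exact hω.le)).trans hM.le
  have hlω : ℵ₀ < lam := hω.trans hμl
  obtain ⟨T, hT, hTcof⟩ := exists_cofinal lam hlω.le
  rw [hcof] at hT
  obtain ⟨eb⟩ : Nonempty (ℕ ≃ T) := by rw [← Cardinal.eq, hT, Cardinal.mk_nat]
  have hb : ∀ a, ∃ n, a < (eb n).1 := by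
    intro a
    obtain ⟨d, hd, had⟩ := hTcof a
    exact ⟨eb.symm ⟨d, hd⟩, by simpa using had⟩
  have hsl : Order.succ μ ≤ lam := Order.succ_le_of_lt hμl
  obtain ⟨ι, hι⟩ : ∃ ι : (Order.succ μ).ord.ToType → lam.ord.ToType, Function.Injective ι := by
    have : #(Order.succ μ).ord.ToType ≤ #(lam.ord.ToType) := by
      rw [Cardinal.mk_toType, Cardinal.card_ord, hL]; exact hsl
    obtain ⟨e⟩ := (Cardinal.le_def _ _).1 this
    exact ⟨e, e.injective⟩
  refine ⟨hP, fun p => ⟨isCard_of hP μ hω p, singular_of μ hμ p,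
    isCard_of hP _ (hω.trans (Order.lt_succ μ)) p, succ_of hP μ hω.le p,
    ⟨isCard_of hP lam hlω p, cofOmega_of lam _ hb p,
      arrow_pos hP lam μ hω.le hPμ hpow.le h ι hι p⟩,
    arrow_pos hP lam μ hω.le hPμ hpow.le h id Function.injective_id p, ?_⟩⟩
  rintro b ⟨a, ha⟩
  refine arrow_neg (M := μ.ord.ToType) (by rw [hM]; exact hω) (by rw [hM]; exact hpow.le)
    (by rw [hL]; exact hlω) _ hb (C := Iio b) ?_ ⟨a, ha⟩ p
  rw [hM]
  exact mk_Iio_succ b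

end Pool.Agent.K7.H40.Mag
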