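import Pool.Agent.K7.H40.Mag.Coh

/-!
# The negative relation after adding Cohen reals
-/

set_option autoImplicit false

namespace Pool.Agent.K7.H40.Mag

open Cardinal Set Pool.Agent.Helper292.SP Pool.Agent.H631R2

theorem exists_enum {L : Type} [LinearOrder L] (z : {z : Set L // CtblBdd z}) :
    ∃ e : ℕ → L, Function.Injective e ∧ Set.range e = z.1 := by
  obtain ⟨hi, hc, -⟩ := z.2
  obtain ⟨hd⟩ := (Set.countable_infinite_iff_nonempty_denumerable).1 ⟨hc, hi⟩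
  let e := (Denumerable.eqv z.1).symm
  refine ⟨fun n => (e n).1, fun a b h => e.injective (Subtype.ext h), ?_⟩
  ext x
  constructor
  · rintro ⟨n, rfl⟩
    exact (e n).2
  · intro hx
    exact ⟨e.symm ⟨x, hx⟩, by simp⟩

/-- the data of the construction -/
structure Dat (M L C : Type) [LinearOrder L] where
  en : {z : Set L // CtblBdd z} → ℕ → L
  inj : ∀ z, Function.Injective (en z)
  ran : ∀ z, Set.range (en z) = z.1
  al : NN M × C → M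
  al1 : ∀ t, al t ∉ Supp t.1
  al2 : ∀ t t', t ≠ t' → al t ≠ al t' ∧ (al t ∉ Supp t'.1 ∨ al t' ∉ Supp t.1)

theorem exists_dat {M L C : Type} [LinearOrder L] (hM : ℵ₀ < #M) (hT : #(NN M × C) ≤ #M) :
    Nonempty (Dat M L C) := by
  choose en h1 h2 using fun z : {z : Set L // CtblBdd z} => exists_enum z
  obtain ⟨al, h3, h4⟩ := exists_fresh hM hT (fun t => Supp t.1) (fun t => supp_countable t.1)
  exact ⟨⟨en, h1, h2, al, h3, h4⟩⟩

namespace Dat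

variable {M L C : Type} [LinearOrder L] (D : Dat M L C)

/-- the image of the intersection under the enumeration of `z` -/
def EE (t : NN M × C) (z : {z : Set L // CtblBdd z}) : L → Set (Cond (M × ℕ)) := fun a =>
  {r | ∃ k, D.en z k = a ∧ r ∈ Xn t.1 (D.al t) k}

theorem meets_EE {t : NN M × C} {z : {z : Set L // CtblBdd z}} {k : ℕ} {r : Cond (M × ℕ)} :
    r ∈ meets (D.EE t z (D.en z k)) ↔ r ∈ meets (Xn t.1 (D.al t) k) := by
  constructor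
  · intro h q hq
    obtain ⟨v, hv, s, ⟨k', hk', hs⟩, hvs⟩ := h q hq
    rw [D.inj z hk'] at hs
    exact ⟨v, hv, s, hs, hvs⟩
  · intro h q hq
    obtain ⟨v, hv, s, hs, hvs⟩ := h q hq
    exact ⟨v, hv, s, ⟨k, rfl, hs⟩, hvs⟩

theorem EE_mem {t : NN M × C} {z : {z : Set L // CtblBdd z}} {a : L} {r : Cond (M × ℕ)}
    (h : r ∈ meets (D.EE t z a)) : ∃ k, D.en z k = a := by
  obtain ⟨_, _, s, ⟨k, hk, _⟩, _⟩ := h r le_rfl
  exact ⟨k, hk⟩

theorem EE_mem' {t : NN M × C} {z : {z : Set L // CtblBdd z}} {a : L} {r : Cond (M × ℕ)}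
    (h : r ∈ meets (D.EE t z a)) : a ∈ z.1 := by
  rw [← D.ran z]
  exact D.EE_mem h

theorem en_mem (z : {z : Set L // CtblBdd z}) (k : ℕ) : D.en z k ∈ z.1 := by
  rw [← D.ran z]; exact ⟨k, rfl⟩

theorem EE_inf {t : NN M × C} {z : {z : Set L // CtblBdd z}} {q : Cond (M × ℕ)}
    (h : q ∈ fnot (FinN (Xn t.1 (D.al t)))) : q ∈ fnot (FinN (D.EE t z)) := by
  classical
  rw [inf_iff] at h ⊢
  intro r hr s
  obtain ⟨k, hk, r', hr', h'⟩ := h r hr (s.preimage (D.en z) ((D.inj z).injOn))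
  refine ⟨D.en z k, fun hs => hk (Finset.mem_preimage.2 hs), r', hr', D.meets_EE.2 h'⟩

/-- the good pairs: the set is infinite, and `z` is the first set of the ground model which has an
infinite intersection with it -/
def Good (t : NN M × C) (z : {z : Set L // CtblBdd z}) : Set (Cond (M × ℕ)) :=
  fand (fnot (FinN (Xn t.1 (D.al t))))
    (fall fun z' : {z : Set L // CtblBdd z} => fall fun _ : WellOrderingRel z' z =>
      FinN (restr (D.EE t z) z'.1))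

theorem dn_Good (t : NN M × C) (z : {z : Set L // CtblBdd z}) : Down (D.Good t z) :=
  dn_fand (dn_fnot _) (dn_fall fun _ => dn_fall fun _ => dn_fex _)

/-- the sets of the colouring -/
def EN (y : (NN M × C) × {z : Set L // CtblBdd z}) : L → Set (Cond (M × ℕ)) := fun a =>
  {r | r ∈ D.Good y.1 y.2 ∧ r ∈ meets (D.EE y.1 y.2 a)}

/-- the colours -/
def FN (c0 : C) (y : (NN M × C) × {z : Set L // CtblBdd z}) : C → Set (Cond (M × ℕ)) := fun c =>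
  {r | (r ∈ D.Good y.1 y.2 ∧ c = y.1.2) ∨ (r ∈ fnot (D.Good y.1 y.2) ∧ c = c0)}

theorem EN_EE {y : (NN M × C) × {z : Set L // CtblBdd z}} {a : L} {r : Cond (M × ℕ)}
    (h : r ∈ meets (D.EN y a)) : r ∈ meets (D.EE y.1 y.2 a) := by
  refine meets_of_dense fun q hq => ?_
  obtain ⟨v, hv, s, hs, hvs⟩ := h q hq
  exact ⟨v, hv, down_meets hs.2 hvs⟩

theorem EE_EN {y : (NN M × C) × {z : Set L // CtblBdd z}} {a : L} {r : Cond (M × ℕ)}
    (hG : r ∈ D.Good y.1 y.2) (h : r ∈ meets (D.EE y.1 y.2 a)) : r ∈ meets (D.EN y a) :=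
  meets_of_le ⟨hG, h⟩ le_rfl

theorem exists_good {y : (NN M × C) × {z : Set L // CtblBdd z}} {a : L} {r : Cond (M × ℕ)}
    (h : r ∈ meets (D.EN y a)) : ∃ q ≤ r, q ∈ D.Good y.1 y.2 := by
  obtain ⟨v, hv, s, hs, hvs⟩ := h r le_rfl
  exact ⟨v, hv, D.dn_Good _ _ _ hs.1 _ hvs⟩

theorem isFun_FN (c0 : C) (r : Cond (M × ℕ)) : r ∈ IsFun (D.FN c0) := by
  refine ⟨fun y => ?_, fun y c c' => ?_⟩
  · refine mem_fex.2 fun q hq => ?_
    by_cases h : ∃ v ≤ q, v ∈ D.Good y.1 y.2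
    · obtain ⟨v, hv, hG⟩ := h
      exact ⟨v, hv, y.1.2, meets_of_le (Or.inl ⟨hG, rfl⟩) le_rfl⟩
    · push Not at h
      exact ⟨q, le_rfl, c0, meets_of_le (Or.inr ⟨fun v hv => h v hv, rfl⟩) le_rfl⟩
  · refine mem_fimp.2 fun q hq h => ⟨q, le_rfl, ?_⟩
    obtain ⟨v, hv, s, hs, hvs⟩ := h.1 q le_rfl
    obtain ⟨v', hv', s', hs', hvs'⟩ := h.2 v hv
    rcases hs with ⟨hG, hc⟩ | ⟨hG, hc⟩ <;> rcases hs' with ⟨hG', hc'⟩ | ⟨hG', hc'⟩
    · exact hc.trans hc'.symm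
    · exact absurd (D.dn_Good _ _ _ hG _ (hv'.trans hvs)) (hG' v' hvs')
    · exact absurd (D.dn_Good _ _ _ hG' _ hvs') (hG v' (hv'.trans hvs))
    · exact hc.trans hc'.symm

/-- a good pair is determined by its set -/
theorem good_unique {y y' : (NN M × C) × {z : Set L // CtblBdd z}} {q : Cond (M × ℕ)}
    (hG : q ∈ D.Good y.1 y.2) (h1 : q ∈ SubN (D.EN y) (D.EN y'))
    (h2 : q ∈ SubN (D.EN y') (D.EN y)) : y = y' ∧ ∃ r ≤ q, r ∈ D.Good y'.1 y'.2 := by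
  rw [SubN_iff] at h1 h2
  -- some extension forces the second pair to be good
  obtain ⟨a, -, q1, hq1, ha⟩ := inf_iff.1 (D.EE_inf (z := y.2) hG.1) q le_rfl ∅
  obtain ⟨q2, hq2, hG'⟩ := D.exists_good (h1 a q1 hq1
    (D.EE_EN (D.dn_Good _ _ _ hG _ hq1) ha))
  have hq2' : q2 ≤ q := hq2.trans hq1
  have hG2 := D.dn_Good _ _ _ hG _ hq2'
  refine ⟨?_, q2, hq2', hG'⟩
  have e1 : ∀ r ≤ q2, ∀ a, r ∈ meets (D.EE y.1 y.2 a) → r ∈ meets (D.EE y'.1 y'.2 a) :=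
    fun r hr a h => D.EN_EE (h1 a r (hr.trans hq2') (D.EE_EN (D.dn_Good _ _ _ hG2 _ hr) h))
  have e2 : ∀ r ≤ q2, ∀ a, r ∈ meets (D.EE y'.1 y'.2 a) → r ∈ meets (D.EE y.1 y.2 a) :=
    fun r hr a h => D.EN_EE (h2 a r (hr.trans hq2') (D.EE_EN (D.dn_Good _ _ _ hG' _ hr) h))
  have hz : y.2 = y'.2 := by
    rcases trichotomous_of (WellOrderingRel (α := {z : Set L // CtblBdd z})) y.2 y'.2 with h | h | h
    · exfalso
      exact D.EE_inf (z := y'.2) hG'.1 q2 le_rfl (fin_mono (hG'.2 y.2 h) fun r hr a ha =>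
        meets_restr.2 ⟨D.EE_mem' (e2 r hr a ha), ha⟩)
    · exact h
    · exfalso
      exact D.EE_inf (z := y.2) hG2.1 q2 le_rfl (fin_mono (hG2.2 y'.2 h) fun r hr a ha =>
        meets_restr.2 ⟨D.EE_mem' (e1 r hr a ha), ha⟩)
  obtain ⟨t, z⟩ := y
  obtain ⟨t', z'⟩ := y'
  simp only at hz
  subst hz
  by_contra hne
  have hne' : t ≠ t' := fun h => hne (by rw [h])
  have x1 : ∀ r ≤ q2, ∀ k, r ∈ meets (Xn t.1 (D.al t) k) → r ∈ meets (Xn t'.1 (D.al t') k) :=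
    fun r hr k h => D.meets_EE.1 (e1 r hr _ (D.meets_EE.2 h))
  have x2 : ∀ r ≤ q2, ∀ k, r ∈ meets (Xn t'.1 (D.al t') k) → r ∈ meets (Xn t.1 (D.al t) k) :=
    fun r hr k h => D.meets_EE.1 (e2 r hr _ (D.meets_EE.2 h))
  obtain ⟨h3, h4⟩ := D.al2 t t' hne'
  rcases h4 with h4 | h4
  · exact Xn_ne (D.al1 t) h4 h3 hG2.1 x1 x2
  · exact Xn_ne (D.al1 t') h4 h3.symm hG'.1 x2 x1

theorem ext_FN (c0 : C) (y y' : (NN M × C) × {z : Set L // CtblBdd z}) (q : Cond (M × ℕ)) :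
    q ∈ fimp (fand (SubN (D.EN y) (D.EN y')) (SubN (D.EN y') (D.EN y)))
      (fall fun c => fimp (meets (D.FN c0 y c)) (meets (D.FN c0 y' c))) := by
  refine mem_fimp.2 fun r _ h => ⟨r, le_rfl, fun c => mem_fimp.2 fun s hs hc => ?_⟩
  have h1 := dn_SubN _ _ _ h.1 s hs
  have h2 := dn_SubN _ _ _ h.2 s hs
  obtain ⟨v, hv, u, hu, hvu⟩ := hc s le_rfl
  have h1v := dn_SubN _ _ _ h1 v hv
  have h2v := dn_SubN _ _ _ h2 v hv
  rcases hu with ⟨hG, rfl⟩ | ⟨hG, rfl⟩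
  · obtain ⟨rfl, -⟩ := D.good_unique (D.dn_Good _ _ _ hG _ hvu) h1v h2v
    exact ⟨v, hv, meets_of_le (Or.inl ⟨D.dn_Good _ _ _ hG _ hvu, rfl⟩) le_rfl⟩
  · refine ⟨v, hv, meets_of_le (Or.inr ⟨fun w hw hGw => ?_, rfl⟩) le_rfl⟩
    obtain ⟨-, w', hw', hG'⟩ := D.good_unique hGw (dn_SubN _ _ _ h2v w hw) (dn_SubN _ _ _ h1v w hw)
    exact hG w' ((hw'.trans hw).trans hvu) hG'

end Dat

theorem mk_Cond_le {M : Type} (hM : ℵ₀ ≤ #M) : #(Cond (M × ℕ)) ≤ #M := by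
  have h1 : #(Cond (M × ℕ)) ≤ #(Finset ((M × ℕ) × Bool)) :=
    Cardinal.mk_le_of_injective (f := fun p => p.s) (by
      rintro ⟨s, hs⟩ ⟨t, ht⟩ (h : s = t)
      subst h
      rfl)
  have : Infinite M := Cardinal.infinite_iff.2 hM
  refine h1.trans ?_
  rw [Cardinal.mk_finset_of_infinite]
  simp only [Cardinal.mk_prod, Cardinal.lift_id, Cardinal.mk_bool, Cardinal.mk_nat]
  calc #M * ℵ₀ * 2 ≤ #M * #M * #M :=
        mul_le_mul' (mul_le_mul' le_rfl hM) ((Cardinal.natCast_lt_aleph0 (n := 2)).le.trans hM)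
    _ = #M := by rw [Cardinal.mul_eq_self hM, Cardinal.mul_eq_self hM]

theorem arrow_neg {M : Type} (hM : ℵ₀ < #M) (hpow : #M ^ ℵ₀ ≤ #M) {L : Type} [LinearOrder L]
    (hL : ℵ₀ < #L) (b : ℕ → L) (hb : ∀ a, ∃ n, a < b n) {C : Type} (hC : #C ≤ #M) (c0 : C)
    (p : Cond (M × ℕ)) : p ∈ fnot (ArrowN (Cond (M × ℕ)) L C) := by
  intro q _ harr
  have hP : CCC (Cond (M × ℕ)) := Cond.ccc
  have hPM : #(Cond (M × ℕ)) ≤ #M := mk_Cond_le hM.le
  have hT : #(NN M × C) ≤ #M := by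
    rw [Cardinal.mk_prod, Cardinal.lift_id, Cardinal.lift_id]
    calc #(NN M) * #C ≤ #M * #M :=
          mul_le_mul' (mk_names (z := ℕ) hM.le hPM hpow Cardinal.mk_nat.le) hC
      _ = #M := Cardinal.mul_eq_self hM.le
  obtain ⟨D⟩ := exists_dat (L := L) hM hT
  obtain ⟨q1, hq1, h1⟩ := mem_fimp.1 (harr _ D.EN (D.FN c0)) q le_rfl
    ⟨D.isFun_FN c0 q, fun y y' => D.ext_FN c0 y y' q⟩
  obtain ⟨q2, hq2, A, hA, h2⟩ := mem_fex.1 h1 q1 le_rfl
  obtain ⟨q3, hq3, γ, hγ⟩ := mem_fex.1 h2 q2 le_rfl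
  -- the least set of the ground model with infinite intersection with `A`
  obtain ⟨z0, hz0, r0, hr0, h0⟩ := exists_ctbl hP hL b hb (dn_fex _ _ hA q3 hq3)
  have hwf : WellFounded (WellOrderingRel (α := {z : Set L // CtblBdd z})) := IsWellFounded.wf
  let S : Set {z : Set L // CtblBdd z} := {z | ∃ r ≤ q3, r ∈ fnot (FinN (restr A z.1))}
  have hS : S.Nonempty := ⟨⟨z0, hz0⟩, r0, hr0, h0⟩
  obtain ⟨r, hr, hri⟩ := hwf.min_mem S hS
  set z := hwf.min S hS with hz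
  have hfin : ∀ z' : {z : Set L // CtblBdd z}, WellOrderingRel z' z → r ∈ FinN (restr A z'.1) := by
    intro z' hz'
    by_contra hcon
    obtain ⟨s, hs, hs'⟩ := exists_inf hcon
    exact hwf.not_lt_min S (x := z') ⟨s, hs.trans hr, hs'⟩ hz'
  choose w hw using fun k => nice hP (A (D.en z k))
  have hw' : ∀ k u, u ∈ meets (A (D.en z k)) ↔ u ∈ meets (Tn w k) := hw
  have hTi : r ∈ fnot (FinN (Tn w)) := by
    classical
    rw [inf_iff] at hri ⊢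
    intro s hs f
    obtain ⟨a, ha, s', hs', h3⟩ := hri s hs (f.image (D.en z))
    obtain ⟨haz, h4⟩ := meets_restr.1 h3
    rw [← D.ran z] at haz
    obtain ⟨k, rfl⟩ := haz
    exact ⟨k, fun hk => ha (Finset.mem_image_of_mem _ hk), s', hs', (hw' k s').1 h4⟩
  have hXi := Xn_inf (D.al1 (w, γ)) hTi
  have hEA : ∀ s : Cond (M × ℕ), ∀ a, s ∈ meets (D.EE (w, γ) z a) → s ∈ meets (A a) := by
    intro s a hs
    obtain ⟨k, rfl⟩ := D.EE_mem hs
    exact (hw' k s).2 (Xn_meets (D.meets_EE.1 hs))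
  have hG : r ∈ D.Good (w, γ) z := by
    refine ⟨hXi, fun z' hz' => fin_mono (hfin z' hz') fun s _ a ha => ?_⟩
    obtain ⟨h3, h4⟩ := meets_restr.1 ha
    exact meets_restr.2 ⟨h3, hEA s a h4⟩
  have hy : r ∈ fand (SubN (D.EN ((w, γ), z)) A)
      (fand (CtblN (D.EN ((w, γ), z))) (BddN (D.EN ((w, γ), z)))) := ⟨?_, ⟨?_, ?_⟩, ?_⟩
  · obtain ⟨s, hs, h3⟩ := mem_fimp.1 (hγ ((w, γ), z)) r hr hy
    exact h3 s le_rfl (meets_of_le (Or.inl ⟨D.dn_Good _ _ _ hG s hs, rfl⟩) le_rfl)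
  · exact SubN_iff.2 fun a s _ ha => hEA s a (D.EN_EE ha)
  · exact inf_mono (D.EE_inf (z := z) hXi) fun s hs a ha =>
      D.EE_EN (y := ((w, γ), z)) (D.dn_Good _ _ _ hG s hs) ha
  · refine mem_fex.2 fun s hs => ⟨s, le_rfl, fun n a => {_r | D.en z n = a}, ⟨?_, ?_⟩, ?_⟩
    · intro n
      exact mem_fex.2 fun t _ => ⟨t, le_rfl, D.en z n, meets_cst.2 rfl⟩
    · intro n a a'
      refine mem_fimp.2 fun t _ h => ⟨t, le_rfl, ?_⟩
      exact (meets_cst.1 h.1).symm.trans (meets_cst.1 h.2)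
    · intro a
      refine mem_fimp.2 fun t _ h => ⟨t, le_rfl, ?_⟩
      obtain ⟨k, hk⟩ := D.EE_mem (D.EN_EE h)
      exact mem_fex.2 fun t' _ => ⟨t', le_rfl, k, meets_cst.2 hk⟩
  · obtain ⟨b', hb'⟩ := z.2.2.2
    refine fex_of_mem b' (dn_fall fun _ => dn_fimp _ _) fun a => ?_
    refine mem_fimp.2 fun t _ h => ⟨t, le_rfl, ?_⟩
    exact hb' a (D.EE_mem' (D.EN_EE h))

end Pool.Agent.K7.H40.Mag
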