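import Pool.Agent.K7.H40.Mag.Base

/-!
# The positive relation is preserved by small ccc forcing
-/

set_option autoImplicit false

namespace Pool.Agent.K7.H40.Mag

open Cardinal Set Pool.Agent.Helper292.SP Pool.Agent.H631R2

variable {P : Type} [Preorder P]

/-- possible elements -/
def Poss {X : Type} (E : X → Set P) (q : P) : Set X := {c | ∃ s ≤ q, s ∈ meets (E c)}

theorem cover (hP : CCC P) {X : Type} {E : X → Set P} {q : P} (h : q ∈ CtblN E) :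
    ∃ r ≤ q, (Poss E r).Countable ∧ (Poss E r).Infinite := by
  obtain ⟨r, hr, R, hR, hcov⟩ := mem_fex.1 h.2 q le_rfl
  refine ⟨r, hr, ?_, ?_⟩
  · have h1 : ∀ c : Poss E r, ∃ s ≤ r, ∃ n, s ∈ meets (R n c.1) := by
      rintro ⟨c, s, hs, hc⟩
      obtain ⟨s1, hs1, h2⟩ := mem_fimp.1 (hcov c) s hs hc
      obtain ⟨s2, hs2, n, hn⟩ := mem_fex.1 h2 s1 le_rfl
      exact ⟨s2, (hs2.trans hs1).trans hs, n, hn⟩
    choose s hs n hn using h1
    have h2 := hP.mk_le n s (by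
      rintro c c' hne hnn ⟨t, ht, ht'⟩
      apply hne
      apply Subtype.ext
      refine IsFun_fun R r hR t (ht.trans (hs c)) (n c) c.1 c'.1 (down_meets (hn c) ht) ?_
      rw [hnn]
      exact down_meets (hn c') ht')
    rw [Cardinal.mk_nat, Cardinal.mul_eq_self le_rfl] at h2
    exact Cardinal.le_aleph0_iff_set_countable.mp h2
  · intro hfin
    refine h.1 r hr (fex_of_mem hfin.toFinset (dn_fall fun _ => dn_fimp _ _) fun a => ?_)
    refine mem_fimp.2 fun s hs hsa => ⟨s, le_rfl, ?_⟩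
    exact hfin.mem_toFinset.2 ⟨s, hs, hsa⟩

theorem mk_names {z : Type} {μ : Cardinal.{0}} (hμ : ℵ₀ ≤ μ) (hPμ : #P ≤ μ) (hpow : μ ^ ℵ₀ ≤ μ)
    (hz : #z ≤ ℵ₀) : #(z → ℕ → Option P) ≤ μ := by
  have h1 : #(Option P) ≤ μ := by
    rw [Cardinal.mk_option]
    calc #P + 1 ≤ μ + 1 := by gcongr
      _ = μ := Cardinal.add_one_eq hμ
  have h0 : (0:Cardinal.{0}) < #(Option P) := by
    rw [Cardinal.mk_option]; exact lt_of_lt_of_le zero_lt_one (self_le_add_left _ _)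
  have h2 : #(z → ℕ → Option P) = (#(Option P) ^ ℵ₀) ^ #z := by
    simp
  rw [h2, ← Cardinal.power_mul]
  have h3 : ℵ₀ * #z ≤ ℵ₀ := by
    calc ℵ₀ * #z ≤ ℵ₀ * ℵ₀ := by gcongr
      _ = ℵ₀ := Cardinal.mul_eq_self le_rfl
  calc #(Option P) ^ (ℵ₀ * #z) ≤ #(Option P) ^ ℵ₀ :=
        Cardinal.power_le_power_left h0.ne' h3
    _ ≤ μ ^ ℵ₀ := Cardinal.power_le_power_right h1
    _ ≤ μ := hpow

theorem mk_Iio_succ {μ : Cardinal.{0}} (i : (Order.succ μ).ord.ToType) : #(Iio i) ≤ μ := by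
  have h := hI_ord (Order.succ μ) i
  rw [Cardinal.mk_toType, Cardinal.card_ord] at h
  exact Order.lt_succ_iff.1 h

theorem bdd_succ {μ : Cardinal.{0}} (hμ : ℵ₀ ≤ μ) (B : Set (Order.succ μ).ord.ToType)
    (hB : #B ≤ μ) : ∃ m, ∀ k ∈ B, k < m := by
  obtain ⟨m, hm⟩ := bdd_aux (A := (Order.succ μ).ord.ToType) μ hμ (by
    rw [Cardinal.mk_toType, Cardinal.card_ord]; exact Order.lt_succ μ) mk_Iio_succ
    (T := B) hB (fun k => k.1)
  exact ⟨m, fun k hk => hm ⟨k, hk⟩⟩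

theorem fullN_of_card {lam : Cardinal.{0}} (A : Set lam.ord.ToType) (hA : #A = lam) (q : P) :
    q ∈ FullN (P := P) fun a : lam.ord.ToType => {_r : P | a ∈ A} := by
  have h1 : #(lam.ord.ToType) = #A := by
    rw [hA, Cardinal.mk_toType, Cardinal.card_ord]
  obtain ⟨g⟩ := Cardinal.eq.1 h1
  refine mem_fex.2 fun r hr => ⟨r, le_rfl, fun x y => {_r : P | (g x).1 = y}, ⟨⟨?_, ?_⟩, ?_, ?_⟩⟩
  · intro x
    refine mem_fex.2 fun s _ => ⟨s, le_rfl, (g x).1, meets_cst.2 rfl⟩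
  · intro x y y'
    refine mem_fimp.2 fun s _ h => ⟨s, le_rfl, ?_⟩
    exact (meets_cst.1 h.1).symm.trans (meets_cst.1 h.2)
  · intro x x' y
    refine mem_fimp.2 fun s _ h => ⟨s, le_rfl, ?_⟩
    exact g.injective (Subtype.ext ((meets_cst.1 h.1).trans (meets_cst.1 h.2).symm))
  · intro x y
    refine mem_fimp.2 fun s _ h => ⟨s, le_rfl, meets_cst.2 ?_⟩
    rw [← meets_cst.1 h]
    exact (g x).2

theorem arrow_pos (hP : CCC P) (lam μ : Cardinal.{0}) (hμ : ℵ₀ ≤ μ) (hPμ : #P ≤ μ)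
    (hpow : μ ^ ℵ₀ ≤ μ) (h : ArrowLt lam (Order.succ μ)) {K' : Type}
    (ι : (Order.succ μ).ord.ToType → K') (hι : Function.Injective ι) (p : P) :
    p ∈ ArrowN P lam.ord.ToType K' := by
  intro Y E F
  refine mem_fimp.2 fun q _ hq => ⟨q, le_rfl, ?_⟩
  obtain ⟨hF, hext⟩ := hq
  let S : {x : Set lam.ord.ToType // CtblBdd x} → Set (Order.succ μ).ord.ToType := fun z =>
    {k | ∃ s ≤ q, ∃ y, Poss (E y) s ⊆ z.1 ∧ s ∈ meets (F y (ι k))}
  have hS : ∀ z, #(S z) ≤ μ := by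
    intro z
    have h1 : ∀ k : S z, ∃ s ≤ q, ∃ y, Poss (E y) s ⊆ z.1 ∧ s ∈ meets (F y (ι k.1)) := fun k => k.2
    choose s hs y hsub hy using h1
    have h2 : ∀ k : S z, ∃ w : z.1 → ℕ → Option P, ∀ a u,
        u ∈ meets (E (y k) a.1) ↔ u ∈ meets {t | ∃ n, w a n = some t} := by
      intro k
      choose w hw using fun a : z.1 => nice hP (E (y k) a.1)
      exact ⟨w, hw⟩
    choose w hw using h2
    have h3 := hP.mk_le w s (by
      rintro k k' hne hww ⟨t, ht, ht'⟩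
      apply hne
      apply Subtype.ext
      apply hι
      have key : ∀ k k' : S z, w k = w k' → t ≤ s k → t ∈ SubN (E (y k)) (E (y k')) := by
        intro k k' hkk htk
        refine SubN_iff.2 fun a t' ht' h4 => ?_
        have ha : a ∈ z.1 := hsub k ⟨t', ht'.trans htk, h4⟩
        rw [hw k' ⟨a, ha⟩, ← hkk, ← hw k ⟨a, ha⟩]
        exact h4
      obtain ⟨r, hr, h5⟩ := mem_fimp.1 (hext (y k) (y k')) t (ht.trans (hs k))
        ⟨key k k' hww ht, key k' k hww.symm ht'⟩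
      obtain ⟨r', hr', h6⟩ := mem_fimp.1 (h5 (ι k.1)) r le_rfl (down_meets (hy k) (hr.trans ht))
      exact IsFun_fun F q hF r' ((hr'.trans hr).trans (ht.trans (hs k))) (y k') _ _ h6
        (down_meets (hy k') ((hr'.trans hr).trans ht')))
    have h4 : #(z.1 → ℕ → Option P) ≤ μ :=
      mk_names hμ hPμ hpow (Cardinal.le_aleph0_iff_set_countable.mpr z.2.2.1)
    refine h3.trans ?_
    calc #(z.1 → ℕ → Option P) * ℵ₀ ≤ μ * μ := mul_le_mul' h4 hμ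
      _ = μ := Cardinal.mul_eq_self hμ
  choose d hd using fun z => bdd_succ hμ (S z) (hS z)
  obtain ⟨A, hA, hAd⟩ := h d
  obtain ⟨γ, hγ⟩ := bdd_succ hμ _ (Order.lt_succ_iff.1 hAd)
  refine fex_of_mem (fun a => {_r : P | a ∈ A}) (dn_fand (dn_fex _) (dn_fex _))
    ⟨fullN_of_card A hA q, ?_⟩
  refine fex_of_mem (ι γ) (dn_fall fun _ => dn_fimp _ _) fun y => ?_
  refine mem_fimp.2 fun q' hq' hy => ⟨q', le_rfl, fun r hr hFr => ?_⟩
  obtain ⟨hsub, hct, hb⟩ := hy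
  obtain ⟨r1, hr1, b, hb1⟩ := mem_fex.1 hb r hr
  obtain ⟨r2, hr2, hc, hi⟩ := cover hP (dn_CtblN _ _ hct r1 (hr1.trans hr))
  have hz1 : ∀ a ∈ Poss (E y) r2, a < b := by
    rintro a ⟨s, hs, hsa⟩
    obtain ⟨t, _, ht⟩ := mem_fimp.1 (hb1 a) s (hs.trans hr2) hsa
    exact ht
  have hz2 : Poss (E y) r2 ⊆ A := by
    rintro a ⟨s, hs, hsa⟩
    exact meets_cst.1 (SubN_iff.1 hsub a s (((hs.trans hr2).trans hr1).trans hr) hsa)
  have h1 : γ ∈ S ⟨Poss (E y) r2, hi, hc, b, hz1⟩ :=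
    ⟨r2, ((hr2.trans hr1).trans hr).trans hq', y, Subset.rfl, down_meets hFr (hr2.trans hr1)⟩
  have h2 := hd _ γ h1
  have h3 := hγ _ ⟨⟨Poss (E y) r2, hi, hc, b, hz1⟩, hz2, rfl⟩
  exact absurd (h2.trans h3) (lt_irrefl _)

end Pool.Agent.K7.H40.Mag
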