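import Pool.Agent.K7.H40.Mag.Pos

/-!
# From a regular `α` to `μ⁺`, for `μ` of cofinality `α`
-/

set_option autoImplicit false

namespace Pool.Agent.K7.H40.Mag

open Cardinal Set Pool.Agent.Helper292.SP Pool.Agent.H631R2

/-- a small subset of `c.ord.ToType` is strictly bounded -/
theorem bdd_cof {c : Cardinal.{0}} (B : Set c.ord.ToType) (hB : #B < c.ord.cof) :
    ∃ m, ∀ k ∈ B, k < m := by
  by_contra hcon
  push Not at hcon
  have h1 : IsCofinal B := fun a => by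
    obtain ⟨k, hk, hk'⟩ := hcon a
    exact ⟨k, hk, hk'⟩
  have h2 := Order.cof_le h1
  rw [Ordinal.cof_toType] at h2
  exact absurd hB (not_lt.2 h2)

theorem aleph0_le_cof {c : Cardinal.{0}} (hc : ℵ₀ ≤ c) : ℵ₀ ≤ c.ord.cof := by
  rw [Ordinal.aleph0_le_cof_iff, Ordinal.one_lt_cof_iff]
  exact Cardinal.isSuccLimit_ord hc

theorem exists_gt' {c : Cardinal.{0}} (hc : ℵ₀ ≤ c) (a : c.ord.ToType) : ∃ b, a < b := by
  obtain ⟨m, hm⟩ := bdd_cof {a} (by
    rw [Cardinal.mk_singleton]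
    exact Cardinal.one_lt_aleph0.trans_le (aleph0_le_cof hc))
  exact ⟨m, hm a rfl⟩

/-- a cofinal subset of the size of the cofinality -/
theorem exists_cofinal (c : Cardinal.{0}) (hc : ℵ₀ ≤ c) :
    ∃ S : Set c.ord.ToType, #S = c.ord.cof ∧ ∀ a, ∃ b ∈ S, a < b := by
  obtain ⟨S, hS, hS'⟩ := Order.exists_cof_eq c.ord.ToType
  rw [Ordinal.cof_toType] at hS'
  refine ⟨S, hS', fun a => ?_⟩
  obtain ⟨b, hb⟩ := exists_gt' hc a
  obtain ⟨d, hd, hd'⟩ := hS b
  exact ⟨d, hd, hb.trans_le hd'⟩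

theorem mk_Iio_lt' {c : Cardinal.{0}} (i : c.ord.ToType) : #(Iio i) < c := by
  have h := hI_ord c i
  rwa [Cardinal.mk_toType, Cardinal.card_ord] at h

theorem stepUp (lam α μ : Cardinal.{0}) (hlam : ℵ₀ < lam) (hcof : lam.ord.cof = ℵ₀)
    (hα : α.IsRegular) (hα1 : ℵ₀ < α) (hμ : ℵ₀ ≤ μ) (hμα : μ.ord.cof = α)
    (h : ArrowLt lam α) : ArrowLt lam (Order.succ μ) := by
  classical
  intro f
  by_contra hcon
  push Not at hcon
  -- injections of the initial segments of `μ⁺` into `μ`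
  have he : ∀ δ : (Order.succ μ).ord.ToType, Nonempty (Iio δ ↪ μ.ord.ToType) := by
    intro δ
    rw [← Cardinal.le_def, Cardinal.mk_toType, Cardinal.card_ord]
    exact mk_Iio_succ δ
  let e := fun δ => (he δ).some
  -- a function from `μ` to `α` with small fibres
  obtain ⟨S, hS, hScof⟩ := exists_cofinal μ hμ
  obtain ⟨g⟩ : Nonempty (α.ord.ToType ≃ S) := by
    rw [← Cardinal.eq, hS, hμα, Cardinal.mk_toType, Cardinal.card_ord]
  have hπ : ∀ ξ : μ.ord.ToType, ∃ i, ξ < (g i).1 := by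
    intro ξ
    obtain ⟨b, hb, hb'⟩ := hScof ξ
    exact ⟨g.symm ⟨b, hb⟩, by simpa using hb'⟩
  choose π hπ using hπ
  -- sets on which `π` is bounded are small
  have hsmall : ∀ i0 : α.ord.ToType, #{ξ | π ξ < i0} < μ := by
    intro i0
    obtain ⟨b, hb⟩ := bdd_cof ((fun i => (g i).1) '' Iio i0) (by
      rw [hμα]
      exact (Cardinal.mk_image_le).trans_lt (mk_Iio_lt' i0))
    refine (Cardinal.mk_le_mk_of_subset (t := Iio b) ?_).trans_lt (mk_Iio_lt' b)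
    intro ξ hξ
    exact (hπ ξ).trans (hb _ ⟨π ξ, hξ, rfl⟩)
  -- the relation between a set and the values of its partitions
  let V : {x : Set lam.ord.ToType // CtblBdd x} → α.ord.ToType → Prop := fun x v =>
    ∃ y z : {x : Set lam.ord.ToType // CtblBdd x}, x.1 = y.1 ∪ z.1 ∧
      (∀ a ∈ y.1, ∀ b ∈ z.1, a < b) ∧ ∃ h : f y < f z, v = π (e (f z) ⟨f y, h⟩)
  have hV : ∀ x, {v | V x v}.Countable := by
    intro x
    have h1 : {v | V x v} ⊆ ⋃ a ∈ x.1, {v | ∃ y z : {x : Set lam.ord.ToType // CtblBdd x},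
        y.1 = x.1 ∩ Iio a ∧ z.1 = x.1 ∩ Ici a ∧ ∃ h : f y < f z, v = π (e (f z) ⟨f y, h⟩)} := by
      rintro v ⟨y, z, hxyz, hyz, hv⟩
      have hne : z.1.Nonempty := z.2.1.nonempty
      have hwf : WellFounded ((· < ·) : lam.ord.ToType → lam.ord.ToType → Prop) := wellFounded_lt
      have hm := hwf.min_mem z.1 hne
      have hm' : ∀ b ∈ z.1, hwf.min z.1 hne ≤ b := fun b hb =>
        not_lt.1 (hwf.not_lt_min z.1 hb)
      refine Set.mem_iUnion₂.2 ⟨hwf.min z.1 hne, by rw [hxyz]; exact Or.inr hm, y, z, ?_, ?_, hv⟩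
      · ext b
        rw [hxyz]
        constructor
        · exact fun hb => ⟨Or.inl hb, hyz b hb _ hm⟩
        · rintro ⟨hb | hb, hb'⟩
          · exact hb
          · exact absurd hb' (not_lt.2 (hm' b hb))
      · ext b
        rw [hxyz]
        constructor
        · exact fun hb => ⟨Or.inr hb, hm' b hb⟩
        · rintro ⟨hb | hb, hb'⟩
          · exact absurd (hyz b hb _ hm) (not_lt.2 hb')
          · exact hb
    refine Set.Countable.mono h1 (x.2.2.1.biUnion fun a _ => Set.Subsingleton.countable ?_)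
    rintro v ⟨y, z, hy, hz, hv, rfl⟩ v' ⟨y', z', hy', hz', hv', rfl⟩
    have e1 : y = y' := Subtype.ext (hy.trans hy'.symm)
    have e2 : z = z' := Subtype.ext (hz.trans hz'.symm)
    subst e1 e2
    rfl
  have hC : ∀ x, ∃ m, ∀ v ∈ {v | V x v}, v < m := fun x => bdd_cof _ (by
    rw [hα.cof_ord]
    exact (Cardinal.le_aleph0_iff_set_countable.2 (hV x)).trans_lt hα1)
  choose C hC using hC
  obtain ⟨A, hA, hAC⟩ := h C
  obtain ⟨i0, hi0⟩ := bdd_cof _ (by rw [hα.cof_ord]; exact hAC)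
  -- a cofinal sequence
  obtain ⟨T, hT, hTcof⟩ := exists_cofinal lam hlam.le
  rw [hcof] at hT
  have hTc : T.Countable := Cardinal.le_aleph0_iff_set_countable.1 hT.le
  have hbig : ∃ b ∈ T, ¬ #{γ | ∃ y : {x : Set lam.ord.ToType // CtblBdd x},
      y.1 ⊆ A ∩ Iio b ∧ f y = γ} ≤ μ := by
    by_contra h1
    push Not at h1
    refine absurd (hcon A hA) (not_le.2 (Order.lt_succ_iff.2 ?_))
    let GS : T → Set (Order.succ μ).ord.ToType := fun b =>
      {γ | ∃ y : {x : Set lam.ord.ToType // CtblBdd x}, y.1 ⊆ A ∩ Iio b.1 ∧ f y = γ}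
    have hGS : ∀ b, #(GS b) ≤ μ := fun b => h1 b.1 b.2
    have h2 : {γ | ∃ y : {x : Set lam.ord.ToType // CtblBdd x}, y.1 ⊆ A ∧ f y = γ} ⊆
        ⋃ b : T, GS b := by
      rintro γ ⟨y, hy, rfl⟩
      obtain ⟨c, hc⟩ := y.2.2.2
      obtain ⟨b, hb, hcb⟩ := hTcof c
      exact Set.mem_iUnion.2 ⟨⟨b, hb⟩, y, fun a ha => ⟨hy ha, (hc a ha).trans hcb⟩, rfl⟩
    refine (Cardinal.mk_le_mk_of_subset h2).trans ?_
    refine (Cardinal.mk_iUnion_le_sum_mk (f := GS)).trans ?_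
    refine (Cardinal.sum_le_sum _ (fun _ : T => μ) hGS).trans ?_
    rw [Cardinal.sum_const', hT]
    calc ℵ₀ * μ ≤ μ * μ := mul_le_mul' hμ le_rfl
      _ = μ := Cardinal.mul_eq_self hμ
  obtain ⟨b, hb, hbT⟩ := hbig
  obtain ⟨G, hG, hGμ⟩ := Cardinal.le_mk_iff_exists_subset.1 (not_le.1 hbT).le
  obtain ⟨δ0, hδ0⟩ := bdd_succ hμ G hGμ.le
  -- a colour above `δ0` further up
  have hA' : #(A ∩ Ici b : Set _) = lam := by
    apply le_antisymm
    · calc #(A ∩ Ici b : Set _) ≤ #A := Cardinal.mk_le_mk_of_subset Set.inter_subset_left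
        _ = lam := hA
    · by_contra h1
      rw [not_le] at h1
      have h2 : A ⊆ (A ∩ Ici b) ∪ Iio b := by
        intro a ha
        rcases lt_or_ge a b with h | h
        · exact Or.inr h
        · exact Or.inl ⟨ha, h⟩
      have h3 := (Cardinal.mk_le_mk_of_subset h2).trans (Cardinal.mk_union_le _ _)
      rw [hA] at h3
      exact absurd h3 (not_le.2 (Cardinal.add_lt_of_lt hlam.le h1 (mk_Iio_lt' b)))
  have hz : ∃ z : {x : Set lam.ord.ToType // CtblBdd x}, z.1 ⊆ A ∩ Ici b ∧ δ0 ≤ f z := by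
    by_contra h1
    push Not at h1
    refine absurd (hcon _ hA') (not_le.2 (Order.lt_succ_iff.2 ?_))
    refine (Cardinal.mk_le_mk_of_subset (t := Iio δ0) ?_).trans (mk_Iio_succ δ0)
    rintro γ ⟨z, hz, rfl⟩
    exact h1 z hz
  obtain ⟨z, hzA, hzδ⟩ := hz
  have hGz : ∀ γ ∈ G, γ < f z := fun γ hγ => (hδ0 γ hγ).trans_le hzδ
  have hval : ∀ γ (hγ : γ ∈ G), π (e (f z) ⟨γ, hGz γ hγ⟩) < i0 := by
    intro γ hγ
    obtain ⟨y, hy, rfl⟩ := hG hγ
    have hx : CtblBdd (y.1 ∪ z.1) := by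
      refine ⟨y.2.1.mono Set.subset_union_left, y.2.2.1.union z.2.2.1, ?_⟩
      obtain ⟨c, hc⟩ := y.2.2.2
      obtain ⟨d, hd⟩ := z.2.2.2
      refine ⟨max c d, ?_⟩
      rintro a (ha | ha)
      · exact (hc a ha).trans_le (le_max_left _ _)
      · exact (hd a ha).trans_le (le_max_right _ _)
    have h1 : V ⟨_, hx⟩ (π (e (f z) ⟨f y, hGz _ hγ⟩)) :=
      ⟨y, z, rfl, fun a ha b' hb' => (hy ha).2.trans_le (hzA hb').2, hGz _ hγ, rfl⟩
    refine (hC _ _ h1).trans (hi0 _ ⟨⟨_, hx⟩, ?_, rfl⟩)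
    rintro a (ha | ha)
    · exact (hy ha).1
    · exact (hzA ha).1
  have h1 : #G ≤ #{ξ | π ξ < i0} := Cardinal.mk_le_of_injective
    (f := fun γ : G => (⟨e (f z) ⟨γ.1, hGz γ.1 γ.2⟩, hval γ.1 γ.2⟩ : {ξ | π ξ < i0})) (by
      intro γ γ' hγ
      have h2 := (e (f z)).injective (Subtype.mk.inj hγ)
      exact Subtype.ext (Subtype.mk.inj h2))
  rw [hGμ] at h1
  exact absurd (h1.trans_lt (hsmall i0)) (lt_irrefl _)

end Pool.Agent.K7.H40.Mag
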